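import Pool.Agent.Helper89.NN.Unit
import Pool.Agent.Helper94.CPB.OneSection
import Pool.Agent.Helper29.CPB.Main

/-!
# A left inverse of `L` on the even cohomology of `X × X` and nilpotence for the generic section `S`
give `B(X)`
-/

namespace Pool.Agent.Helper90.NS

open Pool.Agent.Helper29.CPB Pool.Agent.Helper29.CPB.OS Pool.Agent.Helper29.CPB.NL
  Pool.Agent.Helper89.NN TensorProduct

universe u v

variable {F : Type u} [Field F] [CharZero F]

lemma dn_sgn {Z S : Variety.{u, v} F} (G : GenericSection Z S 1) (y : S.H) :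
    G.dn (S.sgn y) = Z.sgn (G.dn y) := by
  rw [← sum_π_apply S y]
  simp only [map_sum]
  refine Finset.sum_congr rfl fun i _ => ?_
  have h := S.π_apply_idem i y
  rw [S.sgn_apply h, map_smul, Z.sgn_apply (dn_homog G h)]
  congr 1
  rcases Int.even_or_odd i with hi | hi
  · rw [(Int.natAbs_even.mpr hi).neg_one_pow,
      (Int.natAbs_even.mpr (hi.add even_two)).neg_one_pow]
  · rw [(Int.natAbs_odd.mpr hi).neg_one_pow,
      (Int.natAbs_odd.mpr (hi.add_even even_two)).neg_one_pow]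

/-- Nilpotence for the generic section `S` of `Z`: if `L K` is numerically trivial on `Z`, then
`p L K` is nilpotent. -/
lemma nilpotent_of_section {Z S : Variety.{u, v} F} (G : GenericSection Z S 1)
    (hN : Nilpotence S) {k : ℕ} {p K : Module.End F Z.H} (hp : p ∈ Z.corr (-(1 + (k : ℤ))))
    (hK : K ∈ Z.corr (k : ℤ)) (h : NumTriv Z (1 + (k : ℤ)) (Z.L * K)) :
    IsNilpotent (p * (Z.L * K)) := by
  have hKp : K * p ∈ Z.corr (-((1 : ℕ) : ℤ)) := Z.corr_mul' (by push_cast; ring) hK hp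
  set U : Module.End F S.H := G.up ∘ₗ (K * p) ∘ₗ G.dn with hU
  have hUc : U ∈ S.corr 0 := G.restrict (K * p) hKp
  have hdu : G.dn ∘ₗ G.up = (G.m : F) • Z.L := by
    ext z; exact dn_up_apply G z
  have hds : G.dn ∘ₗ S.sgn = Z.sgn ∘ₗ G.dn := by
    ext y; exact dn_sgn G y
  -- the trace of `up A dn`
  have htr : ∀ A : Module.End F Z.H,
      LinearMap.trace F S.H ((G.up ∘ₗ A ∘ₗ G.dn) * S.sgn) =
      (G.m : F) * LinearMap.trace F Z.H (A * Z.sgn * Z.L) := by
    intro A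
    have e1 : (G.up ∘ₗ A ∘ₗ G.dn) * S.sgn = G.up ∘ₗ (A * Z.sgn) ∘ₗ G.dn := by
      show (G.up ∘ₗ A ∘ₗ G.dn) ∘ₗ S.sgn = _
      rw [LinearMap.comp_assoc, LinearMap.comp_assoc, hds]
      rfl
    rw [e1, LinearMap.trace_comp_comm', LinearMap.comp_assoc, hdu, LinearMap.comp_smul, map_smul,
      smul_eq_mul]
    rfl
  have hcs : ∀ {r : ℤ} {f : Module.End F Z.H}, f ∈ Z.corr r → f * Z.sgn = Z.sgn * f :=
    fun hf => corr_comm_sgn Z hf
  have hnil : IsNilpotent U := by
    apply hN U hUc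
    intro b hb
    obtain ⟨γ, hγ, c, hbc⟩ := G.generic b hb
    have hγ' : γ ∈ Z.corr (-1) := hγ
    have e1 : b * U = G.up ∘ₗ (γ * ((G.m : F) • Z.L) * (K * p)) ∘ₗ G.dn + (c : F) • U := by
      rw [hbc, add_mul, smul_mul_assoc, one_mul]
      congr 1
      show (G.up ∘ₗ γ ∘ₗ G.dn) ∘ₗ (G.up ∘ₗ (K * p) ∘ₗ G.dn) = _
      rw [← hdu]
      rfl
    show LinearMap.trace F S.H (b * U * S.sgn) = 0
    rw [e1, add_mul, map_add, htr, smul_mul_assoc, map_smul, hU, htr]
    have h1 : LinearMap.trace F Z.H (K * p * Z.sgn * Z.L) = 0 := by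
      have h2 := h p hp
      rw [← h2, LinearMap.trace_mul_comm, LinearMap.trace_mul_comm F p]
      congr 1
      rw [← mul_assoc, ← mul_assoc, mul_assoc (Z.L * K) Z.sgn p, ← hcs hp, ← mul_assoc]
    have h3 : LinearMap.trace F Z.H (γ * ((G.m : F) • Z.L) * (K * p) * Z.sgn * Z.L) = 0 := by
      have h4 : p * Z.L * γ ∈ Z.corr (-(1 + (k : ℤ))) :=
        Z.corr_mul' (r := -(1 + (k : ℤ)) + 1) (s := -1) (by ring)
          (Z.corr_mul' rfl hp Z.L_corr) hγ'
      have h5 := h _ h4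
      have e2 : γ * ((G.m : F) • Z.L) * (K * p) * Z.sgn * Z.L =
          (G.m : F) • (γ * (Z.L * K * Z.sgn * p * Z.L)) := by
        rw [mul_smul_comm, smul_mul_assoc, smul_mul_assoc, smul_mul_assoc]
        congr 1
        have e3 : K * p * Z.sgn = K * Z.sgn * p := by rw [mul_assoc, hcs hp, ← mul_assoc]
        rw [mul_assoc (γ * Z.L) (K * p) Z.sgn, e3]
        simp only [mul_assoc]
      rw [e2, map_smul, smul_eq_zero]
      right
      rw [LinearMap.trace_mul_comm, ← h5, LinearMap.trace_mul_comm F (p * Z.L * γ)]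
      simp only [mul_assoc]
    rw [h1, h3]
    simp
  obtain ⟨M, hM⟩ := hnil
  refine ⟨M + 1, ?_⟩
  -- `(p L K)^(M+1) = m^(-(M+1)) p dn U^M up K`
  have key : ∀ n : ℕ, (G.m : F) ^ (n + 1) • (p * (Z.L * K)) ^ (n + 1) =
      (p ∘ₗ G.dn) ∘ₗ (U ^ n) ∘ₗ (G.up ∘ₗ K) := by
    intro n
    induction n with
    | zero =>
      rw [zero_add, pow_one, pow_one, pow_zero]
      show _ = p ∘ₗ (G.dn ∘ₗ G.up) ∘ₗ K
      rw [hdu]
      show _ = p * (((G.m : F) • Z.L) * K)
      rw [smul_mul_assoc, mul_smul_comm]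
    | succ n ih =>
      have e1 : (G.m : F) ^ (n + 1 + 1) • (p * (Z.L * K)) ^ (n + 1 + 1) =
          ((G.m : F) • (p * (Z.L * K))) * ((G.m : F) ^ (n + 1) • (p * (Z.L * K)) ^ (n + 1)) := by
        rw [pow_succ' (G.m : F), pow_succ' (p * (Z.L * K)), smul_mul_smul_comm]
      rw [e1, ih, pow_succ' U]
      have e2 : (G.m : F) • (p * (Z.L * K)) = p ∘ₗ (G.dn ∘ₗ G.up) ∘ₗ K := by
        rw [hdu]
        show _ = p * (((G.m : F) • Z.L) * K)
        rw [smul_mul_assoc, mul_smul_comm]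
      rw [e2]
      rfl
  have h1 := key M
  rw [hM] at h1
  have h2 : (G.m : F) ^ (M + 1) ≠ 0 := pow_ne_zero _ (mF_ne G)
  have h3 : (p ∘ₗ G.dn) ∘ₗ (0 : Module.End F S.H) ∘ₗ (G.up ∘ₗ K) = 0 := by
    rw [LinearMap.zero_comp, LinearMap.comp_zero]
  rw [h3, smul_eq_zero] at h1
  exact h1.resolve_left h2

/-- If `L ^ (1+k) a` is numerically trivial, then `a` is nilpotent on the degrees at most
`dim X - (1+k)`; the input is a left inverse of `L` on the even cohomology of `X × X` in low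
degrees, the nilpotence of the numerically trivial correspondences of the generic section `S` of
`X × X`, and left inverses of the `L ^ i`, `i ≤ k`, in these degrees. -/
theorem nil_of_even_section {X Z S : Variety.{u, v} F} (G : GenericSection Z S 1) {τ : (X.H ⊗[F] X.H) ≃ₗ[F] Z.H}
    (hsq : IsSquare X Z τ) (k : ℕ) (γ : Module.End F Z.H) (hγ : γ ∈ Z.corr (-1))
    (hlow : ∀ j : ℤ, Even j → j + 1 ≤ Z.dim → ∀ z, Z.π j z = z → γ (Z.L z) = z)
    (hN : Nilpotence S)
    (hw : ∀ i ≤ k, ∃ w ∈ X.corr (-(i : ℤ)), ∀ j : ℤ, j ≤ X.dim - (1 + k : ℕ) → ∀ x,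
      X.π j x = x → w ((X.L ^ i) x) = x)
    (a : Module.End F X.H) (ha : a ∈ X.corr 0)
    (hnum : ∀ θ ∈ X.corr (-((1 + k : ℕ) : ℤ)),
      LinearMap.trace F X.H (θ * X.L ^ (1 + k) * a * X.sgn) = 0) :
    ∃ M : ℕ, ∀ j : ℤ, j ≤ X.dim - (1 + k : ℕ) → ∀ x, X.π j x = x → (a ^ M) x = 0 := by
  have hn : NumTriv X ((1 + k : ℕ) : ℤ) (X.L ^ (1 + k) * a) := by
    intro v hv
    have := hnum v hv
    rw [← mul_assoc, ← mul_assoc]
    exact this
  have hdim := hsq.dim
  -- the coefficients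
  obtain ⟨β, ⟨i1, hi1, hβ1⟩, hβ⟩ := exists_coef k (2 * 1 - 1) 1
  obtain ⟨i0, hi0, hβ0, hmax⟩ : ∃ i0 ≤ k, β i0 ≠ 0 ∧ ∀ i, i0 < i → i ≤ k → β i = 0 := by
    classical
    let S := (Finset.range (k + 1)).filter (fun i => β i ≠ 0)
    have hS : S.Nonempty := ⟨i1, Finset.mem_filter.mpr ⟨Finset.mem_range.mpr (by omega), hβ1⟩⟩
    have hmem := S.max'_mem hS
    refine ⟨S.max' hS, ?_, (Finset.mem_filter.mp hmem).2, ?_⟩
    · have := Finset.mem_range.mp (Finset.mem_filter.mp hmem).1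
      omega
    · intro i hi hik
      by_contra hne
      have := S.le_max' i (Finset.mem_filter.mpr ⟨Finset.mem_range.mpr (by omega), hne⟩)
      omega
  have hknum := num_kap hsq le_rfl hβ ha hn
  have hK := kap_mem hsq k β ha
  obtain ⟨w1, hw1, hinv1⟩ := hw i0 hi0
  obtain ⟨w2, hw2, hinv2⟩ := hw (k - i0) (by omega)
  rw [show 2 * 1 - 1 = 1 from rfl, pow_one] at hknum
  set K : Module.End F Z.H := kap τ k β a with hKdef
  set θ : Module.End F Z.H := τ.conj (TensorProduct.map w1 w2) with hθdef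
  have hθ : θ ∈ Z.corr (-(k : ℤ)) := by
    have := hsq.prod _ _ w1 w2 hw1 hw2
    rwa [show (-(i0 : ℤ) + -((k - i0 : ℕ) : ℤ)) = -(k : ℤ) by omega] at this
  set T : Module.End F Z.H := θ * (γ * (Z.L * K)) with hT
  have htm : T ∈ Z.corr 0 := by
    rw [hT]
    refine Z.corr_mul' (r := -(k : ℤ)) (s := (k : ℤ)) (by ring) hθ ?_
    refine Z.corr_mul' (r := -1) (s := (1 : ℤ) + k) (by ring) hγ ?_
    exact Z.corr_mul' (by ring) Z.L_corr hK
  have hTz : ∀ z, T z = θ (γ (Z.L (K z))) := by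
    intro z
    rw [hT]; simp only [Module.End.mul_apply]
  obtain ⟨M, hM⟩ : IsNilpotent T := by
    have h1 : IsNilpotent ((θ * γ) * (Z.L * K)) := by
      refine nilpotent_of_section G hN (k := k) ?_ hK ?_
      · exact Z.corr_mul' (by ring) hθ hγ
      · have h2 := hknum
        rwa [show ((1 + k : ℕ) : ℤ) = 1 + (k : ℤ) by push_cast; ring] at h2
    have h3 : T = (θ * γ) * (Z.L * K) := by rw [hT, mul_assoc]
    rwa [h3]
  refine ⟨M, fun j hj x hx => ?_⟩
  -- the operator on `H ⊗ H`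
  set D : Module.End F (X.H ⊗[F] X.H) := τ.symm.conj T with hD
  have hDapp : ∀ (p q : ℤ) (x y : X.H), p + q = 2 * j → X.π p x = x → X.π q y = y →
      D (x ⊗ₜ y) = ∑ i ∈ Finset.range (k + 1), (β i : F) •
        ((w1 ((X.L ^ i) (a x))) ⊗ₜ[F] (w2 ((X.L ^ (k - i)) (a y)))) := by
    intro p q x y hpq hx hy
    have hz : Z.π (2 * j) (τ (x ⊗ₜ y)) = τ (x ⊗ₜ y) := by
      rw [← hpq]; exact hsq.grade p q x y hx hy
    have hKz : Z.π (2 * j + 2 * k) (K (τ (x ⊗ₜ[F] y))) = K (τ (x ⊗ₜ[F] y)) :=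
      Z.corr_homog hK rfl hz
    have e3 : γ (Z.L (K (τ (x ⊗ₜ[F] y)))) = K (τ (x ⊗ₜ[F] y)) :=
      hlow (2 * j + 2 * k) ⟨j + k, by ring⟩ (by push_cast at hj ⊢; omega) _ hKz
    have hc : ∀ (g : Module.End F (X.H ⊗[F] X.H)) (u : X.H ⊗[F] X.H),
        (τ.conj g) (τ u) = τ (g u) := by
      intro g u
      rw [LinearEquiv.conj_apply_apply, LinearEquiv.symm_apply_apply]
    have e4 : K (τ (x ⊗ₜ[F] y)) = τ (∑ i ∈ Finset.range (k + 1), (β i : F) •
        ((X.L ^ i) (a x) ⊗ₜ[F] (X.L ^ (k - i)) (a y))) := by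
      rw [hKdef, kap, LinearMap.sum_apply, map_sum]
      refine Finset.sum_congr rfl fun i _ => ?_
      rw [LinearMap.smul_apply, hc, map_smul, TensorProduct.map_tmul]
      rfl
    rw [hD, conj_apply', hTz, e3, e4, hθdef, hc, LinearEquiv.symm_apply_apply, map_sum]
    refine Finset.sum_congr rfl fun i _ => ?_
    rw [map_smul, TensorProduct.map_tmul]
  -- the terms
  have hterm : ∀ (p q : ℤ) (x y : X.H), p + q = 2 * j → X.π p x = x → X.π q y = y → ∀ i ≤ k,
      (p < j ∧ i ≤ i0) ∨ (p = j ∧ i < i0) →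
      (w1 ((X.L ^ i) (a x))) ⊗ₜ[F] (w2 ((X.L ^ (k - i)) (a y))) ∈ lowPart X j := by
    intro p q x y hpq hx hy i hik hcase
    have h1 : X.π (p + 2 * i - 2 * i0) (w1 ((X.L ^ i) (a x))) = w1 ((X.L ^ i) (a x)) := by
      have e1 : X.π p (a x) = a x := X.corr_homog ha (by ring) hx
      have e2 : X.π (p + 2 * i) ((X.L ^ i) (a x)) = (X.L ^ i) (a x) :=
        X.corr_homog (X.Lpow_corr i) rfl e1
      exact X.corr_homog hw1 (by ring) e2
    have h2 : X.π (q + 2 * ((k - i : ℕ) : ℤ) - 2 * ((k - i0 : ℕ) : ℤ))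
        (w2 ((X.L ^ (k - i)) (a y))) = w2 ((X.L ^ (k - i)) (a y)) := by
      have e1 : X.π q (a y) = a y := X.corr_homog ha (by ring) hy
      have e2 : X.π (q + 2 * ((k - i : ℕ) : ℤ)) ((X.L ^ (k - i)) (a y)) =
        (X.L ^ (k - i)) (a y) := X.corr_homog (X.Lpow_corr (k - i)) rfl e1
      exact X.corr_homog hw2 (by ring) e2
    apply mem_lowPart _ _ h1 h2
    · omega
    · omega
  have hDlow : ∀ z ∈ lowPart X j, D z ∈ lowPart X j := by
    intro z hz
    induction hz using Submodule.span_induction with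
    | mem z hz =>
      obtain ⟨p, q, x, y, hp, hpq, hx, hy, rfl⟩ := hz
      rw [hDapp p q x y hpq hx hy]
      apply Submodule.sum_mem
      intro i hi
      rw [Finset.mem_range] at hi
      by_cases hii : i ≤ i0
      · exact Submodule.smul_mem _ _ (hterm p q x y hpq hx hy i (by omega) (Or.inl ⟨hp, hii⟩))
      · rw [hmax i (by omega) (by omega), Rat.cast_zero, zero_smul]
        exact Submodule.zero_mem _
    | zero => rw [map_zero]; exact Submodule.zero_mem _
    | add x y _ _ hx hy => rw [map_add]; exact Submodule.add_mem _ hx hy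
    | smul b x _ hx => rw [map_smul]; exact Submodule.smul_mem _ _ hx
  have hDdiag : ∀ x, X.π j x = x → D (x ⊗ₜ x) - (β i0 : F) • (a x ⊗ₜ[F] a x) ∈ lowPart X j := by
    intro x hx
    have hax : X.π j (a x) = a x := X.corr_homog ha (by ring) hx
    rw [hDapp j j x x (by ring) hx hx]
    have e1 : ((β i0 : F) • (a x ⊗ₜ[F] a x)) = (β i0 : F) •
        ((w1 ((X.L ^ i0) (a x))) ⊗ₜ[F] (w2 ((X.L ^ (k - i0)) (a x)))) := by
      rw [hinv1 j hj (a x) hax, hinv2 j hj (a x) hax]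
    rw [e1, ← Finset.add_sum_erase _ _ (Finset.mem_range.mpr (show i0 < k + 1 by omega)),
      add_sub_cancel_left]
    apply Submodule.sum_mem
    intro i hi
    rw [Finset.mem_erase, Finset.mem_range] at hi
    rcases Nat.lt_or_ge i i0 with hii | hii
    · exact Submodule.smul_mem _ _ (hterm j j x x (by ring) hx hx i (by omega)
        (Or.inr ⟨rfl, hii⟩))
    · rw [hmax i (by omega) (by omega), Rat.cast_zero, zero_smul]
      exact Submodule.zero_mem _
  have hpow : ∀ m : ℕ, (D ^ m) (x ⊗ₜ x) - ((β i0 : F) ^ m) • ((a ^ m) x ⊗ₜ[F] (a ^ m) x) ∈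
      lowPart X j := by
    intro m
    induction m with
    | zero => simp
    | succ m ih =>
      have hamx : X.π j ((a ^ m) x) = (a ^ m) x :=
        X.corr_homog (X.corr_pow_zero ha m) (by ring) hx
      have h1 := hDlow _ ih
      rw [map_sub, map_smul] at h1
      have h2 := Submodule.smul_mem _ ((β i0 : F) ^ m) (hDdiag _ hamx)
      rw [smul_sub, smul_smul, ← pow_succ] at h2
      have h3 := Submodule.add_mem _ h1 h2
      rw [sub_add_sub_cancel] at h3
      rw [pow_succ' D, Module.End.mul_apply, pow_succ' a, Module.End.mul_apply]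
      exact h3
  have h1 := hpow M
  have h2 : D ^ M = 0 := by
    rw [hD, ← conj_pow', hM, map_zero]
  rw [h2, LinearMap.zero_apply, zero_sub] at h1
  have h3 := map_lowPart h1
  have haMx : X.π j ((a ^ M) x) = (a ^ M) x :=
    X.corr_homog (X.corr_pow_zero ha M) (by ring) hx
  rw [map_neg, neg_eq_zero, map_smul, TensorProduct.map_tmul, haMx, smul_eq_zero] at h3
  rcases h3 with h3 | h3
  · exact absurd (eq_zero_of_pow_eq_zero h3) (by exact_mod_cast hβ0)
  · exact tmul_self_eq_zero h3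

/-- Algebraic left inverses of all `L ^ (1 + k)`. -/
theorem inverses_of_even_section {X Z S : Variety.{u, v} F} (G : GenericSection Z S 1) {τ : (X.H ⊗[F] X.H) ≃ₗ[F] Z.H}
    (hsq : IsSquare X Z τ) (γ : Module.End F Z.H) (hγ : γ ∈ Z.corr (-1))
    (h : ∀ j : ℤ, Even j → j + 1 ≤ Z.dim → ∀ z, Z.π j z = z → γ (Z.L z) = z)
    (hN : Nilpotence S) (k : ℕ) :
    ∃ w ∈ X.corr (-((1 + k : ℕ) : ℤ)), ∀ j : ℤ, j ≤ X.dim - (1 + k : ℕ) →
      ∀ x, X.π j x = x → w ((X.L ^ (1 + k)) x) = x := by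
  induction k using Nat.strong_induction_on with
  | _ k ih =>
    apply leftInverse_of_nil
    intro a ha hnum
    apply nil_of_even_section G hsq k γ hγ h hN _ a ha hnum
    intro i hi
    rcases Nat.eq_zero_or_pos i with rfl | hipos
    · refine ⟨1, by simpa using X.corr_one, ?_⟩
      intro j _ x _
      rw [pow_zero, Module.End.one_apply, Module.End.one_apply]
    · obtain ⟨w, hw, hinv⟩ := ih (i - 1) (by omega)
      rw [show 1 + (i - 1) = i by omega] at hw hinv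
      exact ⟨w, hw, fun j hj x hx => hinv j (by push_cast at hj ⊢; omega) x hx⟩

theorem lefschetz_of_even_section {X Z S : Variety.{u, v} F} (G : GenericSection Z S 1) {μ : X.H → X.H → Z.H}
    (hsp : SelfProduct X Z μ) (_hX : 1 ≤ X.dim) (γ : Module.End F Z.H) (hγ : γ ∈ Z.corr (-1))
    (h : ∀ j : ℤ, Even j → j + 1 ≤ Z.dim → ∀ z, Z.π j z = z → γ (Z.L z) = z)
    (hN : Nilpotence S) : X.Lefschetz := by
  obtain ⟨τ, hsq⟩ := hsp.isSquare
  apply lefschetz_of_inverse
  intro c hc _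
  obtain ⟨w, hw, hinv⟩ := inverses_of_even_section G hsq γ hγ h hN (c - 1)
  rw [show 1 + (c - 1) = c by omega] at hw hinv
  exact ⟨w, hw, hinv⟩

end Pool.Agent.Helper90.NS
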