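import Pool.Agent.Helper90.NS.Pair

/-!
# Intersection numbers as traces of matrices; `NumTrace` is equivalent to nilpotence
-/

namespace Pool.Agent.Helper90.NS

open Pool.Agent.Helper29.CPB Pool.Agent.Helper89.NN

universe u v

variable {F : Type u} [Field F] [CharZero F] {X : Variety.{u, v} F} (P : Powers X)

/-- the exchange of `e` and `f` in several slots, for forms -/
lemma exchange' {n n' : ℕ} {t t' : List X.H → F} (f1 : IsEvenForm (parity X.dim X.π) n t)
    (f2 : IsEvenForm (parity X.dim X.π) n' t') (m : ℕ)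
    (l₁ l₂ l₃ l₄ : List X.H) (h : l₁.length + m + l₂.length = n)
    (h' : l₃.length + m + l₄.length = n') :
    ∑ a : Fin m → Fin P.r, t (l₁ ++ List.ofFn (fun i => P.e (a i)) ++ l₂) *
        t' (l₃ ++ (List.ofFn fun i => P.f (a i)).reverse ++ l₄) =
      ∑ a : Fin m → Fin P.r, t (l₁ ++ List.ofFn (fun i => P.f (a i)) ++ l₂) *
        t' (l₃ ++ (List.ofFn fun i => X.sgn (P.e (a i))).reverse ++ l₄) := by
  induction m generalizing l₁ l₄ with
  | zero => simp
  | succ m ih =>
    rw [sum_words_succ, sum_words_succ]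
    have e1 : ∀ j, ∑ a : Fin m → Fin P.r,
        t (l₁ ++ List.ofFn (fun i => P.e ((Fin.cons j a : Fin (m + 1) → Fin P.r) i)) ++ l₂) *
        t' (l₃ ++ (List.ofFn fun i => P.f ((Fin.cons j a : Fin (m + 1) → Fin P.r) i)).reverse ++
          l₄) =
        ∑ a : Fin m → Fin P.r,
          t (l₁ ++ P.e j :: (List.ofFn (fun i => P.f (a i)) ++ l₂)) *
          t' ((l₃ ++ (List.ofFn fun i => X.sgn (P.e (a i))).reverse) ++ P.f j :: l₄) := by
      intro j
      have := ih (l₁ ++ [P.e j]) ([P.f j] ++ l₄)
        (by simp only [List.length_append, List.length_cons, List.length_nil]; omega)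
        (by simp only [List.length_append, List.length_cons, List.length_nil]; omega)
      simpa [List.ofFn_succ] using this
    have e2 : ∀ j, ∑ a : Fin m → Fin P.r,
        t (l₁ ++ List.ofFn (fun i => P.f ((Fin.cons j a : Fin (m + 1) → Fin P.r) i)) ++ l₂) *
        t' (l₃ ++ (List.ofFn fun i =>
          X.sgn (P.e ((Fin.cons j a : Fin (m + 1) → Fin P.r) i))).reverse ++ l₄) =
        ∑ a : Fin m → Fin P.r,
          t (l₁ ++ P.f j :: (List.ofFn (fun i => P.f (a i)) ++ l₂)) *
          t' ((l₃ ++ (List.ofFn fun i => X.sgn (P.e (a i))).reverse) ++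
            X.sgn (P.e j) :: l₄) := by
      intro j
      simp [List.ofFn_succ]
    rw [Finset.sum_congr rfl fun j _ => e1 j, Finset.sum_congr rfl fun j _ => e2 j,
      Finset.sum_comm, Finset.sum_comm (s := Finset.univ (α := Fin P.r))]
    refine Finset.sum_congr rfl fun a _ => ?_
    have hl : l₁.length + (List.ofFn (fun i => P.f (a i)) ++ l₂).length + 1 = n := by
      rw [List.length_append, List.length_ofFn]; omega
    have hl' : (l₃ ++ (List.ofFn fun i => X.sgn (P.e (a i))).reverse).length + l₄.length + 1 =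
        n' := by
      rw [List.length_append, List.length_reverse, List.length_ofFn]; omega
    let β : X.H →ₗ[F] X.H →ₗ[F] F := LinearMap.mk₂ F
      (fun x y => t (l₁ ++ x :: (List.ofFn (fun i => P.f (a i)) ++ l₂)) *
        t' ((l₃ ++ (List.ofFn fun i => X.sgn (P.e (a i))).reverse) ++ y :: l₄))
      (fun x x' y => by rw [f1.add _ _ _ _ hl, add_mul])
      (fun c x y => by rw [f1.smul _ _ _ _ hl, smul_eq_mul, mul_assoc])
      (fun x y y' => by rw [f2.add _ _ _ _ hl', mul_add])
      (fun c x y => by rw [f2.smul _ _ _ _ hl', smul_eq_mul]; ring)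
    exact casimir P β

/-- the sign of a basis vector -/
noncomputable def sg (j : Fin P.r) : F := (-1) ^ (P.bases.homog j).choose.natAbs

lemma sgn_e (j : Fin P.r) : X.sgn (P.e j) = sg P j • P.e j :=
  X.sgn_apply (P.bases.homog j).choose_spec

lemma sg_sq (j : Fin P.r) : sg P j * sg P j = 1 := by
  unfold sg
  rw [← pow_add, Even.neg_one_pow ⟨_, rfl⟩]

/-- the sign of a word -/
noncomputable def sw (k : ℕ) (a : Fin k → Fin P.r) : F := ∏ i, sg P (a i)

lemma sw_sq (k : ℕ) (a : Fin k → Fin P.r) : sw P k a * sw P k a = 1 := by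
  unfold sw
  rw [← Finset.prod_mul_distrib]
  exact Finset.prod_eq_one fun i _ => sg_sq P _

/-- parity operators on basis vectors in the last slots -/
lemma sgn_word {n : ℕ} {t : List X.H → F} (ht : IsEvenForm (parity X.dim X.π) n t) (k : ℕ) :
    ∀ (l₁ l₂ : List X.H) (a : Fin k → Fin P.r), l₁.length + k + l₂.length = n →
      t (l₁ ++ (List.ofFn fun i => X.sgn (P.e (a i))) ++ l₂) =
        sw P k a * t (l₁ ++ (List.ofFn fun i => P.e (a i)) ++ l₂) := by
  induction k with
  | zero => intro l₁ l₂ a _; simp [sw]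
  | succ k ih =>
    intro l₁ l₂ a hl
    have h1 : l₁ ++ (List.ofFn fun i => X.sgn (P.e (a i))) ++ l₂ =
        (l₁ ++ [X.sgn (P.e (a 0))]) ++ (List.ofFn fun i : Fin k => X.sgn (P.e (a i.succ))) ++
          l₂ := by
      simp [List.ofFn_succ]
    have h2 : l₁ ++ (List.ofFn fun i => P.e (a i)) ++ l₂ =
        l₁ ++ P.e (a 0) :: ((List.ofFn fun i : Fin k => P.e (a i.succ)) ++ l₂) := by
      simp [List.ofFn_succ]
    rw [h1, ih _ _ (fun i => a i.succ) (by simp; omega), h2, sgn_e]
    have h3 : (l₁ ++ [sg P (a 0) • P.e (a 0)]) ++ (List.ofFn fun i : Fin k => P.e (a i.succ)) ++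
        l₂ = l₁ ++ (sg P (a 0) • P.e (a 0)) ::
          ((List.ofFn fun i : Fin k => P.e (a i.succ)) ++ l₂) := by simp
    rw [h3, ht.smul _ _ _ _ (by simp; omega)]
    unfold sw
    rw [Fin.prod_univ_succ]
    ring

/-- the diagonal matrix of the parity operator -/
noncomputable def sM (k : ℕ) : Matrix (Fin k → Fin P.r) (Fin k → Fin P.r) F :=
  Matrix.diagonal (sw P k)

lemma sM_sq (k : ℕ) : sM P k * sM P k = 1 := by
  unfold sM
  rw [Matrix.diagonal_mul_diagonal, ← Matrix.diagonal_one]
  congr 1
  funext a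
  exact sw_sq P k a

/-- the intersection number as a supertrace -/
lemma link_eq_trace {k : ℕ} {t s : List X.H → F}
    (ht : IsEvenForm (parity X.dim X.π) (2 * k) t) (hs : IsEvenForm (parity X.dim X.π) (2 * k) s) :
    linkForm P.e P.f (2 * k) t s [] [] = (sM P k * (mat P k t * mat P k s)).trace := by
  rw [two_mul, linkForm_add]
  have h2 : ∀ a : Fin k → Fin P.r, linkForm P.e P.f k t s ([] ++ List.ofFn fun i => P.e (a i))
      ((List.ofFn fun i => P.f (a i)).reverse ++ []) = ∑ b : Fin k → Fin P.r,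
      t ([] ++ List.ofFn (fun i => P.e (a i)) ++ List.ofFn fun i => P.e (b i)) *
        s ((List.ofFn fun i => P.f (b i)).reverse ++ (List.ofFn fun i => P.f (a i)).reverse ++
          []) := by
    intro a
    rw [linkForm_eq]
    refine Finset.sum_congr rfl fun b _ => ?_
    simp
  rw [Finset.sum_congr rfl fun a _ => h2 a, Finset.sum_comm]
  have h3 : ∀ b : Fin k → Fin P.r, ∑ a : Fin k → Fin P.r,
      t ([] ++ List.ofFn (fun i => P.e (a i)) ++ List.ofFn fun i => P.e (b i)) *
        s ((List.ofFn fun i => P.f (b i)).reverse ++ (List.ofFn fun i => P.f (a i)).reverse ++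
          []) = ∑ a : Fin k → Fin P.r, sw P k a * (mat P k t a b * mat P k s b a) := by
    intro b
    rw [exchange' P ht hs k [] (List.ofFn fun i => P.e (b i))
      ((List.ofFn fun i => P.f (b i)).reverse) [] (by simp; omega) (by simp; omega)]
    refine Fintype.sum_equiv (Equiv.arrowCongr (Fin.revPerm (n := k)) (Equiv.refl (Fin P.r))) _ _ ?_
    intro a
    have h5 : ∀ g : Fin P.r → X.H, List.ofFn (fun i => g ((Equiv.arrowCongr (Fin.revPerm (n := k))
        (Equiv.refl (Fin P.r)) a) i)) = (List.ofFn fun i => g (a i)).reverse := by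
      intro g
      rw [← ofFn_rev]
      rfl
    have h6 : (List.ofFn fun i => X.sgn (P.e (a i))).reverse =
        List.ofFn fun i => X.sgn (P.e ((Equiv.arrowCongr (Fin.revPerm (n := k))
          (Equiv.refl (Fin P.r)) a) i)) := (h5 fun j => X.sgn (P.e j)).symm
    rw [h6, sgn_word P hs k _ _ _ (by simp; omega), mat, mat, Matrix.of_apply, Matrix.of_apply,
      h5 P.f, List.reverse_reverse]
    simp only [List.nil_append, List.append_nil]
    ring
  rw [Finset.sum_congr rfl fun b _ => h3 b, Finset.sum_comm, Matrix.trace]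
  refine Finset.sum_congr rfl fun a _ => ?_
  rw [Matrix.diag_apply, sM, Matrix.diagonal_mul, Matrix.mul_apply, Finset.mul_sum]

lemma prod_dual (k : ℕ) (c : Fin P.r → F) (a b : Fin k → Fin P.r) :
    ∏ i, (c (a i) * P.B (P.f (a i)) (P.e (b i))) =
      if a = b then ∏ i, c (a i) else 0 := by
  split_ifs with h
  · subst h
    refine Finset.prod_congr rfl fun i _ => ?_
    rw [P.bases.dual, if_pos rfl, mul_one]
  · obtain ⟨i, hi⟩ : ∃ i, a i ≠ b i := by
      by_contra hcon
      push Not at hcon
      exact h (funext hcon)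
    apply Finset.prod_eq_zero (Finset.mem_univ i)
    rw [P.bases.dual, if_neg hi, mul_zero]

lemma mat_pair (k : ℕ) (g : Module.End F X.H) (a b : Fin k → Fin P.r) :
    mat P k (pairForm P.B g k) a b = ∏ i, P.B (g (P.f (a i))) (P.e (b i)) := by
  rw [mat, Matrix.of_apply]
  unfold pairForm
  have e1 : ((List.ofFn fun i => P.f (a i)).reverse ++ List.ofFn fun i => P.e (b i)).take k =
      (List.ofFn fun i => P.f (a i)).reverse := by
    rw [List.take_append]; simp
  have e2 : ((List.ofFn fun i => P.f (a i)).reverse ++ List.ofFn fun i => P.e (b i)).drop k =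
      List.ofFn fun i => P.e (b i) := by
    rw [List.drop_append]; simp
  rw [e1, e2, ← List.reverse_zipWith (by simp), List.prod_reverse]
  have e3 : List.zipWith (fun x y => P.B (g x) y) (List.ofFn fun i => P.f (a i))
      (List.ofFn fun i => P.e (b i)) = List.ofFn fun i => P.B (g (P.f (a i))) (P.e (b i)) := by
    apply List.ext_getElem
    · simp
    · intro i h1 h2
      simp
  rw [e3, List.prod_ofFn]

lemma mat_one (k : ℕ) : mat P k (pairForm P.B 1 k) = 1 := by
  ext a b
  rw [mat_pair]
  have h := prod_dual P k (fun _ => 1) a b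
  simp only [one_mul, Finset.prod_const_one] at h
  simp only [Module.End.one_apply]
  rw [h, Matrix.one_apply]

lemma sgn_f (a b : Fin P.r) : P.B (X.sgn (P.f a)) (P.e b) = sg P b * P.B (P.f a) (P.e b) := by
  have h := dual_sgn P.duality (X.sgn (P.f a)) (P.e b)
  rw [sgn_sgn, sgn_e, map_smul, smul_eq_mul] at h
  exact h.symm

lemma mat_parity (k : ℕ) : mat P k (pairForm P.B (parity X.dim X.π) k) = sM P k := by
  ext a b
  rw [mat_pair]
  have h1 : ∀ i, P.B (parity X.dim X.π (P.f (a i))) (P.e (b i)) =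
      sg P (a i) * P.B (P.f (a i)) (P.e (b i)) := by
    intro i
    have h2 : P.B (parity X.dim X.π (P.f (a i))) (P.e (b i)) =
      sg P (b i) * P.B (P.f (a i)) (P.e (b i)) := sgn_f P (a i) (b i)
    rw [h2, P.bases.dual]
    split_ifs with h3
    · rw [h3]
    · rw [mul_zero, mul_zero]
  rw [Finset.prod_congr rfl fun i _ => h1 i, prod_dual P k (sg P), sM, Matrix.diagonal_apply]
  rfl

/-- the trace on the even cohomology -/
lemma link_plus {k : ℕ} {t : List X.H → F} (ht : IsEvenForm (parity X.dim X.π) (2 * k) t) :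
    linkForm P.e P.f (2 * k) t (plus P k) [] [] =
      (2 : F)⁻¹ * ((sM P k * mat P k t).trace + (mat P k t).trace) := by
  have h1 : mat P k (plus P k) = (2 : F)⁻¹ • (1 + sM P k) := by
    rw [← mat_one P k, ← mat_parity P k]
    ext a b
    rw [Matrix.smul_apply, Matrix.add_apply, smul_eq_mul]
    rfl
  rw [link_eq_trace P ht (plus_form P k), h1, Matrix.mul_smul, Matrix.mul_smul, Matrix.trace_smul,
    smul_eq_mul, mul_add, mul_one, mul_add, Matrix.trace_add]
  congr 2
  rw [Matrix.trace_mul_comm, Matrix.mul_assoc, sM_sq, Matrix.mul_one]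

/-- powers of numerically trivial correspondences are numerically trivial -/
lemma numZero_pow {k : ℕ} {t : List X.H → F} (ht : P.cyc (2 * k) t)
    (hn : NumZero P.e P.f P.cyc k t) (N : ℕ) :
    NumZero P.e P.f P.cyc k (powForm P.e P.f k t N) := by
  cases N with
  | zero => exact hn
  | succ N =>
    intro s hs
    have h1 := hn _ (comp_cyc P (pow_cyc P ht N) hs)
    rw [link_eq_trace P (P.cycles.form _ _ ht)
      (P.cycles.form _ _ (comp_cyc P (pow_cyc P ht N) hs)), mat_link, mat_pow] at h1
    rw [link_eq_trace P (P.cycles.form _ _ (pow_cyc P ht (N + 1))) (P.cycles.form _ _ hs), mat_pow,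
      pow_succ', Matrix.mul_assoc (mat P k t)]
    exact h1

lemma link_diag {k : ℕ} {t : List X.H → F} (ht : P.cyc (2 * k) t)
    (hn : NumZero P.e P.f P.cyc k t) : (sM P k * mat P k t).trace = 0 := by
  have h1 := hn _ (pairForm_cyc P X.cycles.one k)
  rw [link_eq_trace P (P.cycles.form _ _ ht)
    (P.cycles.form _ _ (pairForm_cyc P X.cycles.one k)), mat_one, mul_one] at h1
  exact h1

/-- the trace on the even cohomology is a numerical invariant iff numerically trivial
correspondences are nilpotent -/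
theorem nilpotence_of_numTrace {k : ℕ} (h : NumTrace P k) : P.Nilpotence k := by
  intro t ht hn
  have h0 : (2 : F)⁻¹ ≠ 0 := inv_ne_zero two_ne_zero
  have h1 : ∀ n, 1 ≤ n → (mat P k t ^ n).trace = 0 := by
    intro n hn1
    obtain ⟨N, rfl⟩ : ∃ N, n = N + 1 := ⟨n - 1, by omega⟩
    have h2 := h _ (pow_cyc P ht N) (numZero_pow P ht hn N)
    rw [link_plus P (P.cycles.form _ _ (pow_cyc P ht N)),
      link_diag P (pow_cyc P ht N) (numZero_pow P ht hn N), zero_add, mat_pow] at h2
    exact (mul_eq_zero.mp h2).resolve_left h0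
  have h2 : IsNilpotent (Matrix.toLin' (mat P k t)) := by
    apply Pool.Agent.Helper89.Sgn.isNilpotent_of_trace
    intro n hn1
    rw [← Matrix.toLin'_pow, Matrix.trace_toLin'_eq, h1 _ hn1]
  obtain ⟨N, hN⟩ := h2
  rw [← Matrix.toLin'_pow, LinearEquiv.map_eq_zero_iff] at hN
  refine ⟨N, fun l hl => ?_⟩
  refine eq_zero_of_mat P (pow_cyc P ht N) ?_ l hl
  rw [mat_pow, pow_succ, hN, zero_mul]

theorem numTrace_of_nilpotence {k : ℕ} (h : P.Nilpotence k) : NumTrace P k := by
  intro t ht hn
  obtain ⟨N, hN⟩ := h t ht hn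
  have h1 : mat P k t ^ (N + 1) = 0 := by
    rw [← mat_pow]
    ext a b
    rw [mat, Matrix.of_apply, Matrix.zero_apply]
    exact hN _ (by simp; omega)
  have h2 : (mat P k t).trace = 0 := by
    have h3 := Matrix.isNilpotent_trace_of_isNilpotent ⟨N + 1, h1⟩
    rwa [isNilpotent_iff_eq_zero] at h3
  rw [link_plus P (P.cycles.form _ _ ht), link_diag P ht hn, h2, add_zero, mul_zero]

end Pool.Agent.Helper90.NS
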