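import Pool.Agent.Helper90.NS.EvenZero
import Pool.Agent.Helper90.NS.FromS
import Pool.Agent.Helper90.NS.Trace
import Pool.Agent.Helper89.NN.Final

/-!
# Nilpotence for one power of one generic section gives `B(X)`
-/

namespace Pool.Agent.Helper90.NS

open Pool.Agent.Helper29.CPB Pool.Agent.Helper89.NN

universe u v

variable {F : Type u} [Field F] [CharZero F] {X Z S : Variety.{u, v} F}

/-- left inverse of `L` on the even cohomology in low degrees -/
theorem exists_even_inverse_of (P : Powers S) (G : GenericSection Z S 1) (hodd : Odd S.dim)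
    {Δ : Set S.H} (hM : IsLefschetz P.B P.cyc G.up G.dn Δ)
    (hL : 2 * Module.finrank F Z.H ^ 2 + Module.finrank F Z.H <
      Module.finrank F (LinearMap.ker G.dn))
    (hNN : ∀ k, 2 * k ≤ Module.finrank F S.H + 2 → P.Nilpotence k) :
    ∃ γ ∈ Z.corr (-1), ∀ j : ℤ, Even j → j + 1 ≤ Z.dim → ∀ z, Z.π j z = z → γ (Z.L z) = z := by
  obtain ⟨e, heI, hee, heS, heN⟩ := exists_idem G P hM.orth (nilpotence_one P (hNN 1 (by omega)))
  let E : PData G P :=
    { odd := hodd
      orth := hM.orth
      p := 1 - e
      alg := (S.corr 0).sub_mem S.corr_one heI.1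
      idem := fun x => by
        have h1 : e (e x) = e x := by rw [← Module.End.mul_apply, hee]
        rw [LinearMap.sub_apply, Module.End.one_apply, LinearMap.sub_apply,
          Module.End.one_apply, map_sub, h1, sub_self, sub_zero]
      symm := SA.sub P (SA.one P) heS
      van := fun y hy => by
        rw [LinearMap.sub_apply, heI.2 y hy, sub_zero, Module.End.one_apply] }
  have hp : ∀ x, E.p x = x - e x := fun _ => rfl
  have heven : ∀ x, S.sgn x = x → e x = x := by
    intro x hx
    have h1 := E.even_zero_of heN hM hL hNN (E.p x) (E.idem x) (by rw [E.sgn_p, hx])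
    rw [hp, sub_eq_zero] at h1
    exact h1.symm
  obtain ⟨γ, hγ, heγ⟩ := heI.exists_γ
  refine ⟨(G.m : F) • γ, ?_, ?_⟩
  · have := Z.corr_smul (G.m : ℚ) (-1) γ hγ
    push_cast at this
    exact this
  · intro j hj hjd z hz
    have hd := G.dim
    have h1 : S.sgn (G.up z) = G.up z := by
      rw [S.sgn_apply (up_homog G hz), (Int.natAbs_even.mpr hj).neg_one_pow, one_smul]
    have h2 := heven _ h1
    rw [heγ, dn_up_apply, map_smul] at h2
    have h3 : Z.π j (γ (Z.L z)) = γ (Z.L z) := by
      have e1 : Z.π (j + 2) (Z.L z) = Z.L z := Z.corr_homog Z.L_corr (by ring) hz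
      exact Z.corr_homog hγ (by ring) e1
    have h4 : (G.m : F) • γ (Z.L z) - z = 0 := by
      apply G.weak_inj j (by omega)
      · rw [map_sub, map_smul, h3, hz]
      · rw [map_sub, h2, sub_self]
    rw [LinearMap.smul_apply]
    exact sub_eq_zero.mp h4

/-- the intersection form of a generic section is not zero -/
lemma form_ne_zero (P : Powers S) (G : GenericSection Z S 1) : ∃ x y, P.B x y ≠ 0 := by
  obtain ⟨e, he, -, -⟩ := G.weak.vanishing
  by_contra hcon
  push Not at hcon
  exact he (P.duality.nondeg e fun y => hcon e y)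

/-- **Nilpotence for the power `S^K` of one generic section `S` of `X × X`, `2K ≥ dim H(S) + 2`,
gives `B(X)`.** -/
theorem lefschetz_of_nilpotence {μ : X.H → X.H → Z.H} (hsp : SelfProduct X Z μ) (hX : 1 ≤ X.dim)
    {P : Powers S} (G : GenericMember Z S P) {K : ℕ} (hK : Module.finrank F S.H + 2 ≤ 2 * K)
    (h : P.Nilpotence K) : X.Lefschetz := by
  have h1 := G.dim
  have h2 := hsp.dim
  have hne := form_ne_zero P G.toGenericSection
  have hNN : ∀ k, 2 * k ≤ Module.finrank F S.H + 2 → P.Nilpotence k := fun k hk =>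
    nilpotence_of_le P hne h (by omega)
  obtain ⟨γ, hγ, h3⟩ := exists_even_inverse_of P G.toGenericSection ⟨X.dim - 1, by omega⟩
    G.monodromy G.large hNN
  exact lefschetz_of_even_section G.toGenericSection hsp hX γ hγ h3
    (nilpotence_one P (hNN 1 (by omega)))

theorem cplus_section_of_lefschetz {μ : X.H → X.H → Z.H} (hsp : SelfProduct X Z μ)
    (hX : 1 ≤ X.dim) (G : GenericSection Z S 1) (h : X.Lefschetz) : S.CPlus := by
  obtain ⟨τ, hsq⟩ := hsp.isSquare
  have h1 := G.dim
  have h2 := hsp.dim
  exact cplus_of_lefschetz hsq G ⟨X.dim - 1, by omega⟩ h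

end Pool.Agent.Helper90.NS
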