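import Pool.Agent.Helper90.NS.FromS

/-!
# The nilpotence conjecture passes from `Z` to its generic hyperplane sections
-/

namespace Pool.Agent.Helper90.NS

open Pool.Agent.Helper29.CPB Pool.Agent.Helper29.CPB.OS Pool.Agent.Helper29.CPB.NL
  Pool.Agent.Helper89.NN Polynomial

universe u v

/-- the trace of an idempotent `e` commuting with an involution `s` has a small trace against `s` -/
lemma trace_idem_sgn {F : Type u} [Field F] [CharZero F] {V : Type v} [AddCommGroup V] [Module F V]
    [FiniteDimensional F V] (e s : Module.End F V) (he : e * e = e) (hs : s * s = 1)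
    (hes : e * s = s * e) : ∃ p q : ℕ, p + q = Module.finrank F (LinearMap.range e) ∧
      LinearMap.trace F V (e * s) = (p : F) - q := by
  have h2 : (2 : F) ≠ 0 := two_ne_zero
  set p : Module.End F V := (2 : F)⁻¹ • (e * (1 + s)) with hp
  set q : Module.End F V := (2 : F)⁻¹ • (e * (1 - s)) with hq
  have h22 : (2 : F)⁻¹ * (2 : F)⁻¹ * 2 = (2 : F)⁻¹ := by
    rw [mul_assoc, inv_mul_cancel₀ h2, mul_one]
  have hpp : p * p = p := by
    have e1 : e * (1 + s) * (e * (1 + s)) = (2 : F) • (e * (1 + s)) := by
      have : e * (1 + s) * (e * (1 + s)) = (e * e) * ((1 + s) * (1 + s)) := by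
        have h3 : (1 + s) * e = e * (1 + s) := by rw [add_mul, mul_add, one_mul, mul_one, hes]
        rw [mul_assoc e, ← mul_assoc (1 + s), h3, mul_assoc e (1 + s), ← mul_assoc]
      rw [this, he]
      have h3 : (1 + s) * (1 + s) = (2 : F) • (1 + s) := by
        rw [add_mul, mul_add, mul_add, one_mul, one_mul, mul_one, hs, two_smul]
        abel
      rw [h3, mul_smul_comm]
    rw [hp, smul_mul_smul_comm, e1, smul_smul, h22]
  have hqq : q * q = q := by
    have e1 : e * (1 - s) * (e * (1 - s)) = (2 : F) • (e * (1 - s)) := by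
      have : e * (1 - s) * (e * (1 - s)) = (e * e) * ((1 - s) * (1 - s)) := by
        have h3 : (1 - s) * e = e * (1 - s) := by rw [sub_mul, mul_sub, one_mul, mul_one, hes]
        rw [mul_assoc e, ← mul_assoc (1 - s), h3, mul_assoc e (1 - s), ← mul_assoc]
      rw [this, he]
      have h3 : (1 - s) * (1 - s) = (2 : F) • (1 - s) := by
        rw [sub_mul, mul_sub, mul_sub, one_mul, one_mul, mul_one, hs, two_smul]
        abel
      rw [h3, mul_smul_comm]
    rw [hq, smul_mul_smul_comm, e1, smul_smul, h22]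
  have htr : ∀ f : Module.End F V, f * f = f →
      LinearMap.trace F V f = (Module.finrank F (LinearMap.range f) : F) := by
    intro f hf
    exact LinearMap.IsProj.trace ((LinearMap.isProj_range_iff_isIdempotentElem f).mpr hf)
  have hsum : p + q = e := by
    rw [hp, hq, ← smul_add, ← mul_add]
    have : (1 + s) + (1 - s) = (2 : F) • (1 : Module.End F V) := by rw [two_smul]; abel
    rw [this, mul_smul_comm, smul_smul, inv_mul_cancel₀ h2, one_smul, mul_one]
  have hdiff : p - q = e * s := by
    rw [hp, hq, ← smul_sub, ← mul_sub]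
    have : (1 + s) - (1 - s) = (2 : F) • s := by rw [two_smul]; abel
    rw [this, mul_smul_comm, smul_smul, inv_mul_cancel₀ h2, one_smul]
  refine ⟨Module.finrank F (LinearMap.range p), Module.finrank F (LinearMap.range q), ?_, ?_⟩
  · have h3 := congrArg (LinearMap.trace F V) hsum
    rw [map_add, htr p hpp, htr q hqq, htr e he] at h3
    exact_mod_cast h3
  · rw [← hdiff, map_sub, htr p hpp, htr q hqq]

/-- the spectral idempotent of `A` for the eigenvalue `c ≠ 0`, as a polynomial in `A` without
constant term -/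
lemma exists_spectral {F : Type u} [Field F] {V : Type v} [AddCommGroup V] [Module F V]
    [FiniteDimensional F V] (A : Module.End F V) {c : F} (hc : c ≠ 0)
    (hroot : A.charpoly.IsRoot c) :
    ∃ r : F[X], (aeval A (X * r)) * (aeval A (X * r)) = aeval A (X * r) ∧
      (X * r).eval c = 1 := by
  have hχ0 : A.charpoly ≠ 0 := A.charpoly_monic.ne_zero
  have hchar : aeval A A.charpoly = 0 := LinearMap.aeval_self_charpoly A
  generalize A.charpoly = χ at hroot hχ0 hchar
  obtain ⟨ψ, hψ, hψ0⟩ := Polynomial.exists_eq_pow_rootMultiplicity_mul_and_not_dvd χ hχ0 c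
  have hm1 : 0 < χ.rootMultiplicity c := (Polynomial.rootMultiplicity_pos hχ0).mpr hroot
  generalize χ.rootMultiplicity c = m at hψ hm1
  have hco : IsCoprime ((X - C c) ^ m) (X * ψ) := by
    apply IsCoprime.pow_left
    refine IsCoprime.mul_right ?_ ?_
    · have h1 : IsCoprime (X - C c : F[X]) (X - C 0) :=
        Polynomial.isCoprime_X_sub_C_of_isUnit_sub (by simpa using hc)
      rwa [C_0, sub_zero] at h1
    · exact ((Polynomial.irreducible_X_sub_C c).coprime_iff_not_dvd).mpr hψ0
  obtain ⟨a, b, hab⟩ := hco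
  refine ⟨b * ψ, ?_, ?_⟩
  · rw [← sub_eq_zero, ← map_mul, ← map_sub]
    have e1 : X * (b * ψ) * (X * (b * ψ)) - X * (b * ψ) = -(a * b * X) * χ := by
      have h1 : b * (X * ψ) - 1 = -(a * (X - C c) ^ m) := by linear_combination hab
      calc X * (b * ψ) * (X * (b * ψ)) - X * (b * ψ) = b * (X * ψ) * (b * (X * ψ) - 1) := by ring
        _ = -(a * b * X) * ((X - C c) ^ m * ψ) := by rw [h1]; ring
        _ = _ := by rw [← hψ]
    rw [e1, map_mul, hchar, mul_zero]
  · have h3 := congrArg (Polynomial.eval c) hab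
    rw [eval_add, eval_mul, eval_pow, eval_sub, eval_X, eval_C, sub_self,
      zero_pow (by omega), mul_zero, zero_add, eval_one] at h3
    rw [← h3]
    congr 1
    ring

lemma aeval_eigen {F : Type u} [Field F] {V : Type v} [AddCommGroup V] [Module F V]
    (A : Module.End F V) {c : F} {y : V} (h : A y = c • y) (q : F[X]) :
    aeval A q y = q.eval c • y := by
  induction q using Polynomial.induction_on' with
  | add p q hp hq => rw [map_add, LinearMap.add_apply, hp, hq, eval_add, add_smul]
  | monomial n a =>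
    rw [aeval_monomial, eval_monomial]
    have h1 : (A ^ n) y = c ^ n • y := by
      induction n with
      | zero => rw [pow_zero, pow_zero, one_smul, Module.End.one_apply]
      | succ n ih => rw [pow_succ, Module.End.mul_apply, h, map_smul, ih, smul_smul, pow_succ']
    rw [Module.End.mul_apply, h1, Module.algebraMap_end_apply, smul_smul]

lemma aeval_comm {F : Type u} [Field F] {V : Type v} [AddCommGroup V] [Module F V]
    {A s : Module.End F V} (h : A * s = s * A) (q : F[X]) : aeval A q * s = s * aeval A q := by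
  induction q using Polynomial.induction_on' with
  | add p q hp hq => rw [map_add, add_mul, mul_add, hp, hq]
  | monomial n a =>
    have h1 : Commute (A ^ n) s := (show Commute A s from h).pow_left n
    rw [aeval_monomial, mul_assoc, h1.eq, ← mul_assoc, Algebra.commutes a s, mul_assoc]

lemma trace_aeval {F : Type u} [Field F] {V : Type v} [AddCommGroup V] [Module F V]
    {A s : Module.End F V} (h : ∀ n : ℕ, LinearMap.trace F V (A ^ (n + 1) * s) = 0) (r : F[X]) :
    LinearMap.trace F V (aeval A (X * r) * s) = 0 := by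
  induction r using Polynomial.induction_on' with
  | add p q hp hq => rw [mul_add, map_add, add_mul, map_add, hp, hq, add_zero]
  | monomial n a =>
    rw [X_mul_monomial, aeval_monomial, ← Algebra.smul_def, smul_mul_assoc, map_smul, h n,
      smul_zero]

/-- Let `A` be `c ≠ 0` on `V`, stable on the complement `R` of `V`, and let `s` be an involution
which is a sign on `V`; if the traces of all `A ^ n * s` vanish, then `dim V ≤ dim R`. -/
lemma finrank_le_of_traces {F : Type u} [Field F] [CharZero F] {H : Type v} [AddCommGroup H]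
    [Module F H] [FiniteDimensional F H] (A s P : Module.End F H) {c σ : F} (hc : c ≠ 0)
    (hσ : σ * σ = 1) (hP : P * P = P) (hAP : A * P = c • P) (hPA : P * A = A * P)
    (hsP : s * P = σ • P) (hPs : P * s = s * P) (hs : s * s = 1) (hAs : A * s = s * A)
    (htr : ∀ n : ℕ, LinearMap.trace F H (A ^ (n + 1) * s) = 0) (hP0 : P ≠ 0) :
    Module.finrank F (LinearMap.range P) ≤ Module.finrank F (LinearMap.range (1 - P)) := by
  obtain ⟨v, hv⟩ : ∃ v, P v ≠ 0 := by
    by_contra hcon
    push Not at hcon
    exact hP0 (LinearMap.ext hcon)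
  have hAv : ∀ y, A (P y) = c • P y := by
    intro y
    have := congrArg (fun f => f y) hAP
    exact this
  have hroot : A.charpoly.IsRoot c := by
    rw [← Module.End.hasEigenvalue_iff_isRoot_charpoly]
    exact Module.End.hasEigenvalue_of_hasEigenvector
      (Module.End.hasEigenvector_iff.mpr ⟨Module.End.mem_eigenspace_iff.mpr (hAv v), hv⟩)
  obtain ⟨r, hee, hr⟩ := exists_spectral A hc hroot
  have htre := trace_aeval htr r
  have hes := aeval_comm hAs (X * r)
  have heP : aeval A (X * r) * P = P := by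
    ext y
    rw [Module.End.mul_apply, aeval_eigen A (hAv y), hr, one_smul]
  have hPe : P * aeval A (X * r) = P := by
    rw [← aeval_comm hPA.symm, heP]
  generalize aeval A (X * r) = e at hee htre hes heP hPe
  have hff : (e - P) * (e - P) = e - P := by
    rw [sub_mul, mul_sub, mul_sub, hee, heP, hPe, hP, sub_self, sub_zero]
  have hfs : (e - P) * s = s * (e - P) := by rw [sub_mul, mul_sub, hes, hPs]
  obtain ⟨p, q, hpq, hpq'⟩ := trace_idem_sgn (e - P) s hff hs hfs
  have htrP : LinearMap.trace F H P = (Module.finrank F (LinearMap.range P) : F) :=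
    LinearMap.IsProj.trace ((LinearMap.isProj_range_iff_isIdempotentElem P).mpr hP)
  have h1 : LinearMap.trace F H (P * s) = σ * (Module.finrank F (LinearMap.range P) : F) := by
    rw [hPs, hsP, map_smul, htrP, smul_eq_mul]
  have h2 : (p : F) - q + σ * (Module.finrank F (LinearMap.range P) : F) = 0 := by
    rw [← hpq', ← h1, ← map_add, ← add_mul, sub_add_cancel, htre]
  have h3 : Module.finrank F (LinearMap.range (e - P)) ≤
      Module.finrank F (LinearMap.range (1 - P)) := by
    apply Submodule.finrank_mono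
    rintro _ ⟨y, rfl⟩
    refine ⟨e y, ?_⟩
    rw [LinearMap.sub_apply, LinearMap.sub_apply, Module.End.one_apply]
    congr 1
    have := congrArg (fun f => f y) hPe
    exact this
  have h4 : σ = 1 ∨ σ = -1 := by
    have : (σ - 1) * (σ + 1) = 0 := by linear_combination hσ
    rcases mul_eq_zero.mp this with h | h
    · exact Or.inl (sub_eq_zero.mp h)
    · exact Or.inr (eq_neg_of_add_eq_zero_left h)
  rcases h4 with rfl | rfl
  · have h5 : (p : F) + (Module.finrank F (LinearMap.range P) : F) = q := by linear_combination h2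
    have h6 : p + Module.finrank F (LinearMap.range P) = q := by exact_mod_cast h5
    omega
  · have h5 : (q : F) + (Module.finrank F (LinearMap.range P) : F) = p := by linear_combination -h2
    have h6 : q + Module.finrank F (LinearMap.range P) = p := by exact_mod_cast h5
    omega

variable {F : Type u} [Field F] [CharZero F] {Z S : Variety.{u, v} F}

/-- A correspondence all whose powers have supertrace zero vanishes on the vanishing cohomology. -/
lemma scalar_zero (G : GenericSection Z S 1)
    (hL : Module.finrank F Z.H < Module.finrank F (LinearMap.ker G.dn))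
    {A : Module.End F S.H} {γ : Module.End F Z.H} {c : F}
    (hA : A = G.up ∘ₗ γ ∘ₗ G.dn + c • 1) (hAs : A * S.sgn = S.sgn * A)
    (htr : ∀ n : ℕ, LinearMap.trace F S.H (A ^ (n + 1) * S.sgn) = 0) : c = 0 := by
  by_contra hc
  have hAV : ∀ y, G.dn y = 0 → A y = c • y := by
    intro y hy
    rw [hA, LinearMap.add_apply, LinearMap.comp_apply, LinearMap.comp_apply, hy, map_zero,
      map_zero, zero_add, LinearMap.smul_apply, Module.End.one_apply]
  have hAR : ∀ z, ∃ z', A (G.up z) = G.up z' := by
    intro z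
    refine ⟨γ (G.dn (G.up z)) + c • z, ?_⟩
    rw [hA, LinearMap.add_apply, LinearMap.comp_apply, LinearMap.comp_apply,
      LinearMap.smul_apply, Module.End.one_apply, map_add, map_smul]
  have hker : ∀ y, S.sgn (vanProj G y) = ((-1 : F) ^ S.dim) • vanProj G y := by
    intro y
    rw [S.sgn_apply (ker_middle G (vanProj_mem G y)), Int.natAbs_natCast]
  have hP : vanProj G * vanProj G = vanProj G := LinearMap.ext fun y => vanProj_idem G y
  have hran : LinearMap.range (vanProj G) = LinearMap.ker G.dn := by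
    ext y
    constructor
    · rintro ⟨z, rfl⟩
      exact vanProj_mem G z
    · intro hy
      exact ⟨y, vanProj_of_ker G hy⟩
  have hP0 : vanProj G ≠ 0 := by
    obtain ⟨e, he, -, he'⟩ := G.weak.vanishing
    intro h
    apply he
    rw [← vanProj_of_ker G he', h, LinearMap.zero_apply]
  have hsplit : ∀ y, ∃ z, y = vanProj G y + G.up z := by
    intro y
    obtain ⟨z, hz⟩ := sub_vanProj G y
    exact ⟨z, by rw [hz]; abel⟩
  have h1 := finrank_le_of_traces A S.sgn (vanProj G) (σ := (-1 : F) ^ S.dim) hc
    (by rw [← pow_add, Even.neg_one_pow ⟨_, rfl⟩]) hP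
    (LinearMap.ext fun y => hAV _ (vanProj_mem G y))
    (by
      ext y
      rw [Module.End.mul_apply, Module.End.mul_apply, hAV _ (vanProj_mem G y)]
      obtain ⟨z, hz⟩ := hsplit y
      obtain ⟨z', hz'⟩ := hAR z
      conv_lhs => rw [hz]
      rw [map_add, hz', map_add, vanProj_up, add_zero, hAV _ (vanProj_mem G y), map_smul,
        vanProj_idem])
    (LinearMap.ext fun y => hker y)
    (by
      ext y
      rw [Module.End.mul_apply, Module.End.mul_apply, hker]
      obtain ⟨z, hz⟩ := hsplit y
      have h2 : S.sgn (G.up z) = G.up (Z.sgn z) := by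
        rw [← sum_π_apply Z z]
        simp only [map_sum]
        refine Finset.sum_congr rfl fun i _ => ?_
        have h := Z.π_apply_idem i z
        rw [S.sgn_apply (up_homog G h), Z.sgn_apply h, map_smul]
      conv_lhs => rw [hz]
      rw [map_add, h2, map_add, vanProj_up, add_zero, hker, map_smul, vanProj_idem])
    S.sgn_mul_sgn hAs htr hP0
  rw [hran] at h1
  have h2 : Module.finrank F (LinearMap.range (1 - vanProj G)) ≤ Module.finrank F Z.H := by
    refine le_trans (Submodule.finrank_mono ?_) (LinearMap.finrank_range_le G.up)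
    rintro _ ⟨y, rfl⟩
    obtain ⟨z, hz⟩ := sub_vanProj G y
    exact ⟨z, hz⟩
  omega

/-- **The nilpotence conjecture for `Z` implies the nilpotence conjecture for the generic
hyperplane sections of large degree of `Z`.** -/
theorem nilpotence_section (G : GenericSection Z S 1)
    (hL : Module.finrank F Z.H < Module.finrank F (LinearMap.ker G.dn)) (hZ : Nilpotence Z) :
    Nilpotence S := by
  intro a ha hn
  have ha0 : a ∈ S.corr 0 := ha
  have hnt : NT S a := hn
  obtain ⟨γ, hγ, c, hac⟩ := G.generic a ha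
  have hγ' : γ ∈ Z.corr (-1) := hγ
  have hpow : ∀ n : ℕ, LinearMap.trace F S.H (a ^ (n + 1) * S.sgn) = 0 := by
    intro n
    rw [pow_succ]
    exact hnt _ (S.corr_pow_zero ha0 n)
  have hc : (c : F) = 0 := scalar_zero G hL hac (S.commute_sgn ha0) hpow
  rw [hc, zero_smul, add_zero] at hac
  have hdu : G.dn ∘ₗ G.up = (G.m : F) • Z.L := by
    ext z; exact dn_up_apply G z
  have hds : G.dn ∘ₗ S.sgn = Z.sgn ∘ₗ G.dn := by
    ext y; exact dn_sgn G y
  have hm := mF_ne G
  set y : Module.End F Z.H := γ * Z.L with hy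
  have hy0 : y ∈ Z.corr 0 := Z.corr_mul' (by ring) hγ' Z.L_corr
  -- `y` is orthogonal to the left ideal generated by `L`
  have hort : ∀ δ ∈ Z.corr (-1), LinearMap.trace F Z.H (δ * Z.L * y * Z.sgn) = 0 := by
    intro δ hδ
    have h1 := hnt _ (G.restrict δ hδ)
    have e1 : (G.up ∘ₗ δ ∘ₗ G.dn) * a * S.sgn =
        G.up ∘ₗ ((G.m : F) • (δ * Z.L * γ * Z.sgn)) ∘ₗ G.dn := by
      rw [hac]
      show (G.up ∘ₗ δ ∘ₗ G.dn) ∘ₗ (G.up ∘ₗ γ ∘ₗ G.dn) ∘ₗ S.sgn = _
      have e2 : (G.up ∘ₗ δ ∘ₗ G.dn) ∘ₗ (G.up ∘ₗ γ ∘ₗ G.dn) ∘ₗ S.sgn =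
          G.up ∘ₗ (δ ∘ₗ (G.dn ∘ₗ G.up) ∘ₗ γ ∘ₗ (G.dn ∘ₗ S.sgn)) := rfl
      rw [e2, hdu, hds]
      ext x
      simp only [LinearMap.comp_apply, LinearMap.smul_apply, map_smul, Module.End.mul_apply]
    rw [e1, LinearMap.trace_comp_comm', LinearMap.comp_assoc, hdu] at h1
    have e3 : ((G.m : F) • (δ * Z.L * γ * Z.sgn)) ∘ₗ ((G.m : F) • Z.L) =
        ((G.m : F) * (G.m : F)) • (δ * Z.L * y * Z.sgn) := by
      have e4 : Z.sgn * Z.L = Z.L * Z.sgn := (corr_comm_sgn Z Z.L_corr).symm
      show ((G.m : F) • (δ * Z.L * γ * Z.sgn)) * ((G.m : F) • Z.L) = _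
      rw [smul_mul_smul_comm, mul_assoc _ Z.sgn, e4, hy]
      simp only [mul_assoc]
    rw [e3, map_smul, smul_eq_zero] at h1
    exact h1.resolve_left (mul_ne_zero hm hm)
  have hy2 : IsNilpotent (y * y) := by
    apply hZ _ (Z.corr_mul' (by ring) hy0 hy0)
    intro x hx
    have hx0 : x ∈ Z.corr 0 := hx
    have h1 := hort (x * γ) (Z.corr_mul' (by ring) hx0 hγ')
    show LinearMap.trace F Z.H (x * (y * y) * Z.sgn) = 0
    rw [← h1, hy]
    simp only [mul_assoc]
  obtain ⟨N, hN⟩ := hy2
  have hyN : y ^ (2 * N) = 0 := by rw [pow_mul, pow_two, hN]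
  refine ⟨2 * N + 1, ?_⟩
  have key : ∀ n : ℕ, a ^ (n + 1) = (G.m : F) ^ n • (G.up ∘ₗ (y ^ n * γ) ∘ₗ G.dn) := by
    intro n
    induction n with
    | zero => rw [zero_add, pow_one, pow_zero, pow_zero, one_smul, one_mul, hac]
    | succ n ih =>
      rw [pow_succ', ih, mul_smul_comm, pow_succ' (G.m : F), mul_comm (G.m : F), mul_smul]
      congr 1
      rw [hac]
      have e2 : (G.up ∘ₗ γ ∘ₗ G.dn) * (G.up ∘ₗ (y ^ n * γ) ∘ₗ G.dn) =
          G.up ∘ₗ (γ ∘ₗ (G.dn ∘ₗ G.up) ∘ₗ (y ^ n * γ)) ∘ₗ G.dn := rfl
      rw [e2, hdu, pow_succ' y]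
      ext x
      simp only [LinearMap.comp_apply, LinearMap.smul_apply, map_smul, Module.End.mul_apply, hy]
  rw [key, hyN, zero_mul, LinearMap.zero_comp, LinearMap.comp_zero, smul_zero]

end Pool.Agent.Helper90.NS
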