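import Pool.Agent.Helper90.NS.Represent
import Pool.Agent.Helper90.NS.Inherit
import Pool.Agent.Helper89.NN.Final

/-!
# The sign conjecture up to numerical equivalence for generic sections
-/

namespace Pool.Agent.Helper90.NS

open Pool.Agent.Helper29.CPB Pool.Agent.Helper89.NN

universe u v

variable {F : Type u} [Field F] [CharZero F] {Z S : Variety.{u, v} F}

/-- the nilpotence conjecture for `S` is the nilpotence conjecture for `S^1` -/
theorem nilpotence_one' (P : Powers S) (h : Nilpotence S) : P.Nilpotence 1 := by
  intro t ht hn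
  obtain ⟨a, ha, ha'⟩ := P.cycles.corr' t ht
  have ha0 : a ∈ S.corr 0 := ha
  obtain ⟨N, hN⟩ := h a ha (by
    intro b hb
    have hb0 : b ∈ S.corr 0 := hb
    obtain ⟨t', ht', hb'⟩ := P.cycles.corr b hb
    have h0 := hn t' ht'
    have h1 : ∀ i, ∑ j, t [P.e i, P.e j] * t' [P.f j, P.f i] =
        P.B ((b * a) (P.e i)) (P.f i) := by
      intro i
      rw [Module.End.mul_apply]
      conv_rhs => rw [← P.zag (a (P.e i))]
      rw [map_sum, map_sum, LinearMap.sum_apply]
      refine Finset.sum_congr rfl fun j _ => ?_
      rw [ha', hb', map_smul, map_smul, LinearMap.smul_apply, smul_eq_mul]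
    have h2 : linkForm P.e P.f (2 * 1) t t' [] [] =
      ∑ i, ∑ j, t [P.e i, P.e j] * t' [P.f j, P.f i] := rfl
    rw [h2, Finset.sum_congr rfl fun i _ => h1 i,
      ← P.str_eq (S.corr_mul' (by ring) hb0 ha0)] at h0
    exact h0)
  have key : ∀ (m : ℕ) (x y : S.H), powForm P.e P.f 1 t m [x, y] = P.B ((a ^ (m + 1)) x) y := by
    intro m
    induction m with
    | zero => intro x y; rw [zero_add, pow_one]; exact ha' x y
    | succ m ih =>
      intro x y
      show ∑ j, powForm P.e P.f 1 t m [x, P.e j] * t [P.f j, y] = _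
      rw [pow_succ' a (m + 1), Module.End.mul_apply]
      conv_rhs => rw [← P.zag ((a ^ (m + 1)) x)]
      rw [map_sum, map_sum, LinearMap.sum_apply]
      refine Finset.sum_congr rfl fun j _ => ?_
      rw [ih, ha', map_smul, map_smul, LinearMap.smul_apply, smul_eq_mul]
  refine ⟨N, fun l hl => ?_⟩
  obtain ⟨x, y, rfl⟩ : ∃ x y, l = [x, y] := by
    match l with
    | [] => simp at hl
    | [_] => simp at hl
    | [x, y] => exact ⟨x, y, rfl⟩
    | _ :: _ :: _ :: _ => simp at hl
  rw [key, pow_succ, hN, zero_mul, LinearMap.zero_apply, map_zero, LinearMap.zero_apply]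

/-- the Euler characteristic of a generic section of large degree is not zero -/
lemma str_one_ne_zero (G : GenericSection Z S 1)
    (hL : Module.finrank F Z.H < Module.finrank F (LinearMap.ker G.dn)) :
    LinearMap.trace F S.H ((1 : Module.End F S.H) * S.sgn) ≠ 0 := by
  intro h
  have h1 : (1 : F) = 0 := scalar_zero G hL (A := 1) (γ := 0) (c := 1)
    (by rw [LinearMap.zero_comp, LinearMap.comp_zero, zero_add, one_smul])
    (by rw [one_mul, mul_one])
    (by intro n; rw [one_pow]; exact h)
  exact one_ne_zero h1

/-- **The sign conjecture up to numerical equivalence for generic sections.** -/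
theorem numCPlus_section (P : Powers S) (G : GenericSection Z S 1)
    (hL : Module.finrank F Z.H < Module.finrank F (LinearMap.ker G.dn)) (hZ : Nilpotence Z)
    (hr : RationalTrace P 1) : NumCPlus P 1 :=
  numCPlus_of_numTrace P hr
    (fun _ _ ht hs => link_rat P S.cycles.one (str_one_ne_zero G hL) ht hs)
    (numTrace_of_nilpotence P (nilpotence_one' P (nilpotence_section G hL hZ)))

end Pool.Agent.Helper90.NS
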