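import Pool.Agent.Helper90.NS.One

/-!
# The nilpotence conjecture passes from `Z` to its generic complete intersections
-/

namespace Pool.Agent.Helper90.NS.CI

open Pool.Agent.Helper29.CPB Pool.Agent.Helper29.CPB.OS Pool.Agent.Helper29.CPB.NL
  Pool.Agent.Helper89.NN

universe u v

variable {F : Type u} [Field F] [CharZero F] {Z S : Variety.{u, v} F} {s : ℕ}

/-- `L^s : H^j → H^(j+2s)` is surjective for `j + s ≥ dim` -/
lemma Lpow_surj_high (X : Variety.{u, v} F) {j : ℤ} {s : ℕ} (hj : (X.dim : ℤ) ≤ j + s) {y : X.H}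
    (hy : X.π (j + 2 * s) y = y) : ∃ x, X.π j x = x ∧ (X.L ^ s) x = y := by
  by_cases h0 : 2 * (X.dim : ℤ) < j + 2 * s
  · have : y = 0 := X.homog_zero (Or.inr h0) hy
    exact ⟨0, map_zero _, by rw [map_zero, this]⟩
  push Not at h0
  obtain ⟨i, hi⟩ := Int.eq_ofNat_of_zero_le (show 0 ≤ 2 * (X.dim : ℤ) - (j + 2 * s) by omega)
  obtain ⟨x, hx, hxy⟩ := X.hard_surj i (by omega) y (by
    rw [← hi, show 2 * (X.dim : ℤ) - (2 * X.dim - (j + 2 * s)) = j + 2 * s by ring]; exact hy)
  obtain ⟨c, hc⟩ : ∃ c, X.dim - i = s + c := ⟨X.dim - i - s, by omega⟩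
  refine ⟨(X.L ^ c) x, X.corr_homog (X.Lpow_corr c) (by omega) hx, ?_⟩
  rw [hc, pow_add, Module.End.mul_apply] at hxy
  exact hxy

variable (G : GenericSection Z S s)

lemma m_ne : (G.m : F) ^ s ≠ 0 := by
  have := G.m_pos
  exact pow_ne_zero _ (by exact_mod_cast (by omega : G.m ≠ 0))

lemma dn_up_apply (z : Z.H) : G.dn (G.up z) = ((G.m : F) ^ s) • (Z.L ^ s) z := G.maps.dn_up z

lemma up_homog {i : ℤ} {z : Z.H} (hz : Z.π i z = z) : S.π i (G.up z) = G.up z := by
  rw [← G.maps.up_deg, hz]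

lemma dn_homog {i : ℤ} {y : S.H} (hy : S.π i y = y) : Z.π (i + 2 * s) (G.dn y) = G.dn y := by
  have := G.maps.dn_deg i y
  rw [hy] at this
  exact this.symm

lemma dn_π {j : ℤ} {y : S.H} (hy : G.dn y = 0) : G.dn (S.π j y) = 0 := by
  rw [G.maps.dn_deg, hy, map_zero]

/-- the Gysin map is injective outside of the middle degree -/
lemma dn_inj {j : ℤ} (hj : j ≠ S.dim) {y : S.H} (hy : S.π j y = y) (h : G.dn y = 0) : y = 0 := by
  have hd := G.dim
  rcases lt_or_gt_of_ne hj with hlt | hgt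
  · obtain ⟨z, hz⟩ := G.weak_onto j hlt y hy
    have hz' : G.up (Z.π j z) = y := by rw [G.maps.up_deg, hz, hy]
    have h1 := dn_up_apply G (Z.π j z)
    rw [hz', h] at h1
    have h2 : (Z.L ^ s) (Z.π j z) = 0 := (smul_eq_zero.mp h1.symm).resolve_left (m_ne G)
    have h3 : Z.π j z = 0 := Lpow_injective_low Z (c := s) (i := j) (by omega)
      (Z.π_apply_idem j z) h2
    rw [← hz', h3, map_zero]
  · exact G.weak_mono j hgt y hy h

lemma ker_deg {j : ℤ} (hj : j ≠ S.dim) {y : S.H} (h : G.dn y = 0) : S.π j y = 0 :=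
  dn_inj G hj (S.π_apply_idem j y) (dn_π G h)

lemma ker_middle {y : S.H} (h : G.dn y = 0) : S.π S.dim y = y := by
  conv_rhs => rw [← sum_π_apply S y]
  symm
  apply Finset.sum_eq_single_of_mem
  · rw [Finset.mem_Icc]; omega
  · intro j _ hj
    exact ker_deg G hj h

lemma isCompl_ker : IsCompl (LinearMap.ker G.dn) (LinearMap.range G.up) := by
  have hd := G.dim
  constructor
  · rw [Submodule.disjoint_def]
    rintro y hy ⟨z, rfl⟩
    rw [LinearMap.mem_ker] at hy
    have h1 := ker_middle G hy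
    rw [← G.maps.up_deg] at h1
    have h2 : G.dn (G.up (Z.π S.dim z)) = 0 := by rw [h1, hy]
    rw [dn_up_apply] at h2
    have h3 := (smul_eq_zero.mp h2).resolve_left (m_ne G)
    have h4 : Z.π S.dim z = 0 := Lpow_injective_low Z (c := s) (i := S.dim) (by omega)
      (Z.π_apply_idem _ z) h3
    rw [← h1, h4, map_zero]
  · rw [codisjoint_iff_le_sup]
    intro y _
    rw [← sum_π_apply S y]
    refine Submodule.sum_mem _ fun j _ => ?_
    by_cases hj : j < S.dim
    · obtain ⟨z, hz⟩ := G.weak_onto j hj (S.π j y) (S.π_apply_idem j y)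
      exact Submodule.mem_sup_right ⟨z, hz⟩
    · obtain ⟨z, hz, hz'⟩ := Lpow_surj_high Z (j := j) (s := s) (by omega)
        (y := G.dn (S.π j y)) (dn_homog G (S.π_apply_idem j y))
      have h1 : S.π j y = (S.π j y - G.up (((G.m : F) ^ s)⁻¹ • z)) +
          G.up (((G.m : F) ^ s)⁻¹ • z) := by
        rw [sub_add_cancel]
      rw [h1]
      refine Submodule.add_mem _ (Submodule.mem_sup_left ?_) (Submodule.mem_sup_right ⟨_, rfl⟩)
      rw [LinearMap.mem_ker, map_sub, dn_up_apply, map_smul, hz', smul_smul,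
        mul_inv_cancel₀ (m_ne G), one_smul, sub_self]

/-- the projector onto the vanishing cohomology -/
noncomputable def vanProj : Module.End F S.H :=
  (LinearMap.ker G.dn).projection (LinearMap.range G.up) (isCompl_ker G)

lemma vanProj_mem (y : S.H) : G.dn (vanProj G y) = 0 :=
  Submodule.projection_apply_mem (isCompl_ker G) y

lemma vanProj_of_ker {y : S.H} (h : G.dn y = 0) : vanProj G y = y :=
  Submodule.projection_apply_of_mem_left (isCompl_ker G) h

lemma vanProj_zero_iff {y : S.H} : vanProj G y = 0 ↔ ∃ z, G.up z = y :=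
  Submodule.projection_apply_eq_zero_iff (isCompl_ker G)

lemma vanProj_up (z : Z.H) : vanProj G (G.up z) = 0 := (vanProj_zero_iff G).mpr ⟨z, rfl⟩

lemma vanProj_idem (y : S.H) : vanProj G (vanProj G y) = vanProj G y :=
  vanProj_of_ker G (vanProj_mem G y)

lemma sub_vanProj (y : S.H) : ∃ z, G.up z = y - vanProj G y :=
  (vanProj_zero_iff G).mp (by rw [map_sub, vanProj_idem, sub_self])

lemma dn_sgn (y : S.H) : G.dn (S.sgn y) = Z.sgn (G.dn y) := by
  rw [← sum_π_apply S y]
  simp only [map_sum]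
  refine Finset.sum_congr rfl fun i _ => ?_
  have h := S.π_apply_idem i y
  rw [S.sgn_apply h, map_smul, Z.sgn_apply (dn_homog G h)]
  congr 1
  have h2 : Even (2 * (s : ℤ)) := even_two_mul _
  rcases Int.even_or_odd i with hi | hi
  · rw [(Int.natAbs_even.mpr hi).neg_one_pow,
      (Int.natAbs_even.mpr (hi.add h2)).neg_one_pow]
  · rw [(Int.natAbs_odd.mpr hi).neg_one_pow,
      (Int.natAbs_odd.mpr (hi.add_even h2)).neg_one_pow]

/-- A correspondence all whose powers have supertrace zero vanishes on the vanishing cohomology. -/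
lemma scalar_zero (G : GenericSection Z S s)
    (hL : Module.finrank F Z.H < Module.finrank F (LinearMap.ker G.dn))
    {A : Module.End F S.H} {γ : Module.End F Z.H} {c : F}
    (hA : A = G.up ∘ₗ γ ∘ₗ G.dn + c • 1) (hAs : A * S.sgn = S.sgn * A)
    (htr : ∀ n : ℕ, LinearMap.trace F S.H (A ^ (n + 1) * S.sgn) = 0) : c = 0 := by
  by_contra hc
  have hAV : ∀ y, G.dn y = 0 → A y = c • y := by
    intro y hy
    rw [hA, LinearMap.add_apply, LinearMap.comp_apply, LinearMap.comp_apply, hy, map_zero,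
      map_zero, zero_add, LinearMap.smul_apply, Module.End.one_apply]
  have hAR : ∀ z, ∃ z', A (G.up z) = G.up z' := by
    intro z
    refine ⟨γ (G.dn (G.up z)) + c • z, ?_⟩
    rw [hA, LinearMap.add_apply, LinearMap.comp_apply, LinearMap.comp_apply,
      LinearMap.smul_apply, Module.End.one_apply, map_add, map_smul]
  have hker : ∀ y, S.sgn (vanProj G y) = ((-1 : F) ^ S.dim) • vanProj G y := by
    intro y
    rw [S.sgn_apply (ker_middle G (vanProj_mem G y)), Int.natAbs_natCast]
  have hP : vanProj G * vanProj G = vanProj G := LinearMap.ext fun y => vanProj_idem G y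
  have hran : LinearMap.range (vanProj G) = LinearMap.ker G.dn := by
    ext y
    constructor
    · rintro ⟨z, rfl⟩
      exact vanProj_mem G z
    · intro hy
      exact ⟨y, vanProj_of_ker G hy⟩
  have hP0 : vanProj G ≠ 0 := by
    obtain ⟨e, he, -, he'⟩ := G.weak.vanishing
    intro h
    apply he
    rw [← vanProj_of_ker G he', h, LinearMap.zero_apply]
  have hsplit : ∀ y, ∃ z, y = vanProj G y + G.up z := by
    intro y
    obtain ⟨z, hz⟩ := sub_vanProj G y
    exact ⟨z, by rw [hz]; abel⟩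
  have h1 := finrank_le_of_traces A S.sgn (vanProj G) (σ := (-1 : F) ^ S.dim) hc
    (by rw [← pow_add, Even.neg_one_pow ⟨_, rfl⟩]) hP
    (LinearMap.ext fun y => hAV _ (vanProj_mem G y))
    (by
      ext y
      rw [Module.End.mul_apply, Module.End.mul_apply, hAV _ (vanProj_mem G y)]
      obtain ⟨z, hz⟩ := hsplit y
      obtain ⟨z', hz'⟩ := hAR z
      conv_lhs => rw [hz]
      rw [map_add, hz', map_add, vanProj_up, add_zero, hAV _ (vanProj_mem G y), map_smul,
        vanProj_idem])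
    (LinearMap.ext fun y => hker y)
    (by
      ext y
      rw [Module.End.mul_apply, Module.End.mul_apply, hker]
      obtain ⟨z, hz⟩ := hsplit y
      have h2 : S.sgn (G.up z) = G.up (Z.sgn z) := by
        rw [← sum_π_apply Z z]
        simp only [map_sum]
        refine Finset.sum_congr rfl fun i _ => ?_
        have h := Z.π_apply_idem i z
        rw [S.sgn_apply (up_homog G h), Z.sgn_apply h, map_smul]
      conv_lhs => rw [hz]
      rw [map_add, h2, map_add, vanProj_up, add_zero, hker, map_smul, vanProj_idem])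
    S.sgn_mul_sgn hAs htr hP0
  rw [hran] at h1
  have h2 : Module.finrank F (LinearMap.range (1 - vanProj G)) ≤ Module.finrank F Z.H := by
    refine le_trans (Submodule.finrank_mono ?_) (LinearMap.finrank_range_le G.up)
    rintro _ ⟨y, rfl⟩
    obtain ⟨z, hz⟩ := sub_vanProj G y
    exact ⟨z, hz⟩
  omega

/-- **The nilpotence conjecture for `Z` implies the nilpotence conjecture for the generic
complete intersections of large degree in `Z`.** -/
theorem nilpotence_section (G : GenericSection Z S s)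
    (hL : Module.finrank F Z.H < Module.finrank F (LinearMap.ker G.dn)) (hZ : Nilpotence Z) :
    Nilpotence S := by
  intro a ha hn
  have ha0 : a ∈ S.corr 0 := ha
  have hnt : NT S a := hn
  obtain ⟨γ, hγ, c, hac⟩ := G.generic a ha
  have hpow : ∀ n : ℕ, LinearMap.trace F S.H (a ^ (n + 1) * S.sgn) = 0 := by
    intro n
    rw [pow_succ]
    exact hnt _ (S.corr_pow_zero ha0 n)
  have hc : (c : F) = 0 := scalar_zero G hL hac (S.commute_sgn ha0) hpow
  rw [hc, zero_smul, add_zero] at hac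
  have hLs : Z.L ^ s ∈ Z.corr (s : ℤ) := Z.Lpow_corr s
  have hm := m_ne G
  have hdu : G.dn ∘ₗ G.up = ((G.m : F) ^ s) • Z.L ^ s := by
    ext z; exact dn_up_apply G z
  have hds : G.dn ∘ₗ S.sgn = Z.sgn ∘ₗ G.dn := by
    ext y; exact dn_sgn G y
  have hres := G.restrict
  generalize (G.m : F) ^ s = M at hm hdu
  generalize Z.L ^ s = Λ at hLs hdu
  set y : Module.End F Z.H := γ * Λ with hy
  have hy0 : y ∈ Z.corr 0 := Z.corr_mul' (by ring) hγ hLs
  -- `y` is orthogonal to the left ideal generated by `L ^ s`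
  have hort : ∀ δ ∈ Z.corr (-(s : ℤ)), LinearMap.trace F Z.H (δ * Λ * y * Z.sgn) = 0 := by
    intro δ hδ
    have h1 := hnt _ (hres δ hδ)
    have e1 : (G.up ∘ₗ δ ∘ₗ G.dn) * a * S.sgn =
        G.up ∘ₗ (M • (δ * Λ * γ * Z.sgn)) ∘ₗ G.dn := by
      rw [hac]
      show (G.up ∘ₗ δ ∘ₗ G.dn) ∘ₗ (G.up ∘ₗ γ ∘ₗ G.dn) ∘ₗ S.sgn = _
      have e2 : (G.up ∘ₗ δ ∘ₗ G.dn) ∘ₗ (G.up ∘ₗ γ ∘ₗ G.dn) ∘ₗ S.sgn =
          G.up ∘ₗ (δ ∘ₗ (G.dn ∘ₗ G.up) ∘ₗ γ ∘ₗ (G.dn ∘ₗ S.sgn)) := rfl
      rw [e2, hdu, hds]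
      ext x
      simp only [LinearMap.comp_apply, LinearMap.smul_apply, map_smul, Module.End.mul_apply]
    rw [e1, LinearMap.trace_comp_comm', LinearMap.comp_assoc, hdu] at h1
    have e3 : (M • (δ * Λ * γ * Z.sgn)) ∘ₗ (M • Λ) = (M * M) • (δ * Λ * y * Z.sgn) := by
      have e4 : Z.sgn * Λ = Λ * Z.sgn := (corr_comm_sgn Z hLs).symm
      show (M • (δ * Λ * γ * Z.sgn)) * (M • Λ) = _
      rw [smul_mul_smul_comm, mul_assoc _ Z.sgn, e4, hy]
      simp only [mul_assoc]
    rw [e3, map_smul, smul_eq_zero] at h1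
    exact h1.resolve_left (mul_ne_zero hm hm)
  have hy2 : IsNilpotent (y * y) := by
    apply hZ _ (Z.corr_mul' (by ring) hy0 hy0)
    intro x hx
    have hx0 : x ∈ Z.corr 0 := hx
    have h1 := hort (x * γ) (Z.corr_mul' (by ring) hx0 hγ)
    show LinearMap.trace F Z.H (x * (y * y) * Z.sgn) = 0
    rw [← h1, hy]
    simp only [mul_assoc]
  obtain ⟨N, hN⟩ := hy2
  have hyN : y ^ (2 * N) = 0 := by rw [pow_mul, pow_two, hN]
  refine ⟨2 * N + 1, ?_⟩
  have key : ∀ n : ℕ, a ^ (n + 1) = M ^ n • (G.up ∘ₗ (y ^ n * γ) ∘ₗ G.dn) := by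
    intro n
    induction n with
    | zero => rw [zero_add, pow_one, pow_zero, pow_zero, one_smul, one_mul, hac]
    | succ n ih =>
      rw [pow_succ', ih, mul_smul_comm, pow_succ' M, mul_comm M, mul_smul]
      congr 1
      rw [hac]
      have e2 : (G.up ∘ₗ γ ∘ₗ G.dn) * (G.up ∘ₗ (y ^ n * γ) ∘ₗ G.dn) =
          G.up ∘ₗ (γ ∘ₗ (G.dn ∘ₗ G.up) ∘ₗ (y ^ n * γ)) ∘ₗ G.dn := rfl
      rw [e2, hdu, pow_succ' y]
      ext x
      simp only [LinearMap.comp_apply, LinearMap.smul_apply, map_smul, Module.End.mul_apply, hy]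
  rw [key, hyN, zero_mul, LinearMap.zero_comp, LinearMap.comp_zero, smul_zero]

/-- the Euler characteristic of a generic complete intersection of large degree is not zero -/
lemma str_one_ne_zero (G : GenericSection Z S s)
    (hL : Module.finrank F Z.H < Module.finrank F (LinearMap.ker G.dn)) :
    LinearMap.trace F S.H ((1 : Module.End F S.H) * S.sgn) ≠ 0 := by
  intro h
  have h1 : (1 : F) = 0 := scalar_zero G hL (A := 1) (γ := 0) (c := 1)
    (by rw [LinearMap.zero_comp, LinearMap.comp_zero, zero_add, one_smul])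
    (by rw [one_mul, mul_one])
    (by intro n; rw [one_pow]; exact h)
  exact one_ne_zero h1

/-- **The sign conjecture up to numerical equivalence for generic complete intersections.** -/
theorem numCPlus_section (P : Powers S) (G : GenericSection Z S s)
    (hL : Module.finrank F Z.H < Module.finrank F (LinearMap.ker G.dn)) (hZ : Nilpotence Z)
    (hr : RationalTrace P 1) : NumCPlus P 1 :=
  numCPlus_of_numTrace P hr
    (fun _ _ ht hs => link_rat P S.cycles.one (str_one_ne_zero G hL) ht hs)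
    (numTrace_of_nilpotence P (nilpotence_one' P (nilpotence_section G hL hZ)))

end Pool.Agent.Helper90.NS.CI
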