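import Pool.Agent.Helper89.NN.Contra

/-!
# The complement of the idempotent has no even part: nilpotence for the powers `S^k`,
`2 k ≤ dim H(S) + 2`, suffices
-/

namespace Pool.Agent.Helper89.NN

open Pool.Agent.Helper29.CPB TT

universe u v

variable {F : Type u} [Field F] [CharZero F] {X Z S : Variety.{u, v} F}

namespace PData

variable {G : GenericSection Z S 1} {P : Powers S} (E : PData G P)

/-- Under the nilpotence conjecture for the powers of `S` there is no even part. -/
theorem even_zero_of (hN : ∀ θ, Id G θ → NT S (θ * E.p)) {Δ : Set S.H}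
    (hM : IsLefschetz P.B P.cyc G.up G.dn Δ)
    (hL : 2 * Module.finrank F Z.H ^ 2 + Module.finrank F Z.H <
      Module.finrank F (LinearMap.ker G.dn)) 
    (hNN : ∀ k, 2 * k ≤ Module.finrank F S.H + 2 → P.Nilpotence k) (x : S.H)
    (hx : E.p x = x) (hx' : S.sgn x = x) : x = 0 := by
  classical
  by_contra hx0
  -- a homogeneous isotropic even vector
  obtain ⟨j, hj⟩ : ∃ j, S.π j x ≠ 0 := by
    by_contra hcon
    push Not at hcon
    exact hx0 (S.eq_zero_of_forall_π hcon)
  set w : S.H := S.π j x with hw
  have hwj : S.π j w = w := S.π_apply_idem j x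
  have hpw : E.p w = w := by
    have := S.corr_deg_apply E.alg j x
    rw [mul_zero, add_zero, hx] at this
    exact this
  have hsw : S.sgn w = w := by
    have h1 : S.sgn * S.π j = S.π j * S.sgn := by
      apply S.ext_homog
      intro i y hy
      rw [Module.End.mul_apply, Module.End.mul_apply, S.sgn_apply hy, map_smul]
      by_cases hij : j = i
      · subst hij; rw [hy, S.sgn_apply hy]
      · rw [S.π_apply_ne hij hy, map_zero, smul_zero]
    have h2 := congrArg (fun g => g x) h1
    simp only [Module.End.mul_apply] at h2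
    rw [hw, h2, hx']
  have hje : Even j := by
    rw [← Int.not_odd_iff_even]
    intro ho
    rw [S.sgn_apply hwj, (Int.natAbs_odd.mpr ho).neg_one_pow, neg_one_smul] at hsw
    have h2 : (2 : F) ≠ 0 := two_ne_zero
    have h3 : (2 : F) • w = 0 := by
      rw [two_smul]
      nth_rewrite 1 [← hsw]
      rw [neg_add_cancel]
    exact hj ((smul_eq_zero.mp h3).resolve_left h2)
  have hd : Odd (S.dim : ℤ) := by exact_mod_cast E.odd
  have hww : P.B w w = 0 := P.duality.deg j j w w hwj hwj (by
    intro h
    have : j = S.dim := by omega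
    rw [this] at hje
    exact (Int.not_even_iff_odd.mpr hd) hje)
  -- the super space
  obtain ⟨n, D, h1, h2, h3⟩ := E.exists_D
  have C : Comp E D := ⟨h1, h2, h3⟩
  have hA := C.algForms
  have hMo := C.mono hM
  have hV := C.scalar hN
  have cV : bV D = Module.finrank F (LinearMap.range E.πU) := by
    unfold bV
    rw [← h3]
    exact D.card_q
  have cU : Fintype.card (Fin n) = Module.finrank F E.U := D.card_eq
  have cVW : Fintype.card (Vx D) + Fintype.card (Wx D) = Fintype.card (Fin n) := by
    have h4 := Fintype.card_subtype_compl (fun i : Fin n => D.q i = true)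
    have h5 := Fintype.card_subtype_le (fun i : Fin n => D.q i = true)
    unfold Vx Wx
    omega
  have cW : Fintype.card (Wx D) ≤ Module.finrank F Z.H := by
    have h4 := LinearMap.finrank_range_add_finrank_ker E.πU
    have h5 := E.finrank_ker_π_le
    have h6 : Fintype.card (Vx D) = bV D := rfl
    omega
  have hb : 2 * Fintype.card (Wx D) ^ 2 + Fintype.card (Wx D) < bV D := by
    have h4 := E.finrank_ker_le
    have h5 : Fintype.card (Wx D) ^ 2 ≤ Module.finrank F Z.H ^ 2 := Nat.pow_le_pow_left cW 2
    omega
  -- the super dimension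
  obtain ⟨k, hk1, hkK, hδ⟩ : ∃ k : ℕ, 1 ≤ k ∧ 2 * k ≤ Module.finrank F S.H + 2 ∧
      D.δ = 2 - 2 * k := by
    set a := Fintype.card {i : Fin n // D.p i = false} with ha
    set b := Fintype.card {i : Fin n // ¬ D.p i = false} with hb'
    have hab : a + b = Fintype.card (Fin n) := by
      have h4 := Fintype.card_subtype_compl (fun i : Fin n => D.p i = false)
      have h5 := Fintype.card_subtype_le (fun i : Fin n => D.p i = false)
      omega
    have hδ : D.δ = (a : F) - b := by
      unfold SS.δ
      rw [Finset.sum_congr rfl fun i _ => B_ef (D := D) i,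
        ← Fintype.sum_subtype_add_sum_subtype (fun i : Fin n => D.p i = false), sub_eq_add_neg]
      congr 1
      · rw [Finset.sum_congr rfl fun (i : {i : Fin n // D.p i = false}) _ => by
          rw [i.2, sp_false], Finset.sum_const, Finset.card_univ, nsmul_eq_mul, mul_one]
      · rw [Finset.sum_congr rfl fun (i : {i : Fin n // ¬ D.p i = false}) _ => by
          rw [(by simpa using i.2 : D.p i = true), sp_true],
          Finset.sum_const, Finset.card_univ, nsmul_eq_mul, mul_neg_one]
    have haW : a ≤ Fintype.card (Wx D) := by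
      apply Fintype.card_le_of_injective (fun i : {i : Fin n // D.p i = false} =>
        (⟨i.1, fun h => by
          have h4 := D.p_q i.1 h
          rw [i.2] at h4
          exact absurd h4 (by simp)⟩ : Wx D))
      intro i i' h
      apply Subtype.ext
      exact congrArg (fun z : Wx D => z.1) h
    have hbV : bV D ≤ b := by
      apply Fintype.card_le_of_injective (fun i : Vx D =>
        (⟨i.1, by rw [D.p_q i.1 i.2]; simp⟩ : {i : Fin n // ¬ D.p i = false}))
      intro i i' h
      apply Subtype.ext
      exact congrArg (fun z : {i : Fin n // ¬ D.p i = false} => z.1) h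
    have hev : Even (a + b) := by
      rw [hab, cU]
      exact E.finrank_U_even
    obtain ⟨m, hm⟩ := hev
    have hUS : Module.finrank F E.U ≤ Module.finrank F S.H := Submodule.finrank_le E.U
    refine ⟨m - a + 1, by omega, by omega, ?_⟩
    rw [hδ]
    have h6 : a ≤ m := by omega
    have h7 : b = 2 * m - a := by omega
    rw [h7]
    push_cast [Nat.cast_sub h6, Nat.cast_sub (show a ≤ 2 * m by omega)]
    ring
  -- the numerically trivial symmetrised form
  have hwU : w ∈ E.U := E.mem_iff.mpr hpw
  set wU : E.U := ⟨w, hwU⟩ with hwUd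
  obtain ⟨T, ⟨t', ht', hT⟩, hTn, c, hc, hTw⟩ := Pool.Agent.Helper76.NN.exists_T hA k
    (fun Q hQ hS => chain hA hMo hV hb hk1 hδ hQ hS) wU
    (Subtype.ext (by rw [C.ε_coe]; exact hsw)) (by rw [C.B_coe]; exact hww)
  obtain ⟨T', hT', hTT⟩ := P.slots 0 ht' E.alg (by omega)
  have hTU : ∀ l : List S.H, l.length = 2 * k → T' l = T (l.map E.pU) := by
    intro l hl
    have h4 := hTT [] l rfl (by simpa using hl)
    simp only [List.nil_append] at h4
    rw [h4, hT _ (by simpa using hl), List.map_map]
    rfl
  have hform := P.cycles.form _ _ hT'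
  obtain ⟨N, hNil⟩ := hNN k hkK T' hT' (by
    intro Q hQ
    have h4 := C.link (2 * k) hform (P.cycles.form _ _ hQ) hTU [] [] (by simp) (by simp)
    rw [List.map_nil] at h4
    rw [h4]
    exact hTn _ ⟨Q, hQ, fun l _ => rfl⟩)
  -- contradiction
  obtain ⟨y, hy⟩ : ∃ y, P.B w y ≠ 0 := by
    by_contra hcon
    push Not at hcon
    exact hj (P.duality.nondeg w hcon)
  have hpow := powForm_prod P w k hform c (by
    intro l hl
    rw [hTU _ (by simp; omega), List.map_append, List.map_replicate]
    have h4 : E.pU w = wU := Subtype.ext hpw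
    rw [h4, hTw _ (by simpa using hl), List.map_map]
    congr 2
    apply List.map_congr_left
    intro z _
    show D.B wU (E.pU z) = P.B w z
    rw [C.B_coe, E.pU_coe, E.B_p]) N (List.replicate k y) (by simp)
  rw [hNil _ (by simp; omega)] at hpow
  have h5 : c ^ (N + 1) * (List.map (fun y => P.B w y) (List.replicate k y)).prod ≠ 0 := by
    rw [List.map_replicate, List.prod_replicate]
    exact mul_ne_zero (pow_ne_zero _ hc) (pow_ne_zero _ hy)
  exact h5 hpow.symm

end PData

end Pool.Agent.Helper89.NN
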