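import Pool.Agent.Helper90.NS.More
import Pool.Agent.Helper22.NN.FromCPlus

/-!
# The nilpotence conjecture for `X^(k+1)` implies the nilpotence conjecture for `X^k`
-/

namespace Pool.Agent.Helper90.NS

open Pool.Agent.Helper29.CPB Pool.Agent.Helper89.NN

universe u v

variable {F : Type u} [Field F] [CharZero F] {X : Variety.{u, v} F} (P : Powers X)

/-- the class of the diagonal inserted in the middle -/
lemma prodForm_mid {k : ℕ} {t d : List X.H → F} (hd : ∀ x y, d [x, y] = P.B x y)
    (l₁ l₂ : List X.H) (x y : X.H) (h1 : l₁.length = k) :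
    prodForm k 2 t d (l₁ ++ x :: y :: l₂) = t (l₁ ++ l₂) * P.B x y := by
  have e1 : (l₁ ++ x :: y :: l₂).take k = l₁ := by
    rw [← h1]; simp
  have e2 : (l₁ ++ x :: y :: l₂).drop k = x :: y :: l₂ := by
    rw [← h1]; simp
  have e3 : (l₁ ++ x :: y :: l₂).drop (k + 2) = l₂ := by
    rw [← h1, List.drop_append]; simp
  unfold prodForm
  rw [e1, e2, e3]
  show t (l₁ ++ l₂) * d [x, y] = _
  rw [hd]

lemma link_mid {k : ℕ} {t c d : List X.H → F} (hd : ∀ x y, d [x, y] = P.B x y)
    (hc : P.cyc (2 * k + 2) c) :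
    linkForm P.e P.f (2 * (k + 1)) (prodForm k 2 t d) c [] [] =
      linkForm P.e P.f (2 * k) t (contrForm P.e P.f k c) [] [] := by
  have fc := P.cycles.form _ _ hc
  rw [show 2 * (k + 1) = k + (k + 1 + 1) by ring, linkForm_add, two_mul k, linkForm_add]
  refine Finset.sum_congr rfl fun a _ => ?_
  rw [List.nil_append, List.append_nil, linkForm_eq P.e P.f k t]
  have h1 : ∀ i j, linkForm P.e P.f k (prodForm k 2 t d) c
      ((List.ofFn (fun i => P.e (a i)) ++ [P.e i]) ++ [P.e j])
      (P.f j :: P.f i :: (List.ofFn fun i => P.f (a i)).reverse) =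
      ∑ b : Fin k → Fin P.r, t (List.ofFn (fun i => P.e (a i)) ++ List.ofFn fun i => P.e (b i)) *
        (P.B (P.e i) (P.e j) * c ((List.ofFn fun i => P.f (b i)).reverse ++ P.f j :: P.f i ::
          (List.ofFn fun i => P.f (a i)).reverse)) := by
    intro i j
    rw [linkForm_eq]
    refine Finset.sum_congr rfl fun b _ => ?_
    have e1 : (List.ofFn (fun i => P.e (a i)) ++ [P.e i]) ++ [P.e j] ++
        (List.ofFn fun i => P.e (b i)) = List.ofFn (fun i => P.e (a i)) ++ P.e i :: P.e j ::
        (List.ofFn fun i => P.e (b i)) := by simp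
    rw [e1, prodForm_mid P hd _ _ _ _ (by simp)]
    ring
  show ∑ i, ∑ j, _ = _
  rw [Finset.sum_congr rfl fun i _ => Finset.sum_congr rfl fun j _ => h1 i j]
  rw [Finset.sum_congr rfl fun i _ => Finset.sum_comm, Finset.sum_comm]
  refine Finset.sum_congr rfl fun b _ => ?_
  simp only [← Finset.mul_sum]
  congr 1
  show _ = ∑ i, c (((List.ofFn fun i => P.f (b i)).reverse ++
    (List.ofFn fun i => P.f (a i)).reverse).take k ++ P.e i :: P.f i ::
    ((List.ofFn fun i => P.f (b i)).reverse ++ (List.ofFn fun i => P.f (a i)).reverse).drop k)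
  refine Finset.sum_congr rfl fun i _ => ?_
  have e2 : ((List.ofFn fun i => P.f (b i)).reverse ++
      (List.ofFn fun i => P.f (a i)).reverse).take k = (List.ofFn fun i => P.f (b i)).reverse := by
    rw [List.take_append]; simp
  have e3 : ((List.ofFn fun i => P.f (b i)).reverse ++
      (List.ofFn fun i => P.f (a i)).reverse).drop k = (List.ofFn fun i => P.f (a i)).reverse := by
    rw [List.drop_append]; simp
  rw [e2, e3]
  have h2 := Powers.formSum fc (List.ofFn fun i => P.f (b i)).reverse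
    (P.f i :: (List.ofFn fun i => P.f (a i)).reverse) (by simp; omega) Finset.univ
    (fun j => P.B (P.e i) (P.e j)) P.f
  rw [P.zag] at h2
  exact h2.symm

lemma pow_mid {k : ℕ} {t d : List X.H → F} (hd : ∀ x y, d [x, y] = P.B x y) (N : ℕ) :
    ∀ (l₁ l₂ : List X.H) (x y : X.H), l₁.length = k → l₂.length = k →
      powForm P.e P.f (k + 1) (prodForm k 2 t d) N (l₁ ++ x :: y :: l₂) =
        powForm P.e P.f k t N (l₁ ++ l₂) * P.B x y := by
  induction N with
  | zero => intro l₁ l₂ x y h1 _; exact prodForm_mid P hd _ _ _ _ h1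
  | succ N ih =>
    intro l₁ l₂ x y h1 h2
    show linkForm P.e P.f (k + 1) (powForm P.e P.f (k + 1) (prodForm k 2 t d) N)
      (prodForm k 2 t d) ((l₁ ++ x :: y :: l₂).take (k + 1)) ((l₁ ++ x :: y :: l₂).drop (k + 1)) =
      linkForm P.e P.f k (powForm P.e P.f k t N) t ((l₁ ++ l₂).take k) ((l₁ ++ l₂).drop k) *
        P.B x y
    have e1 : (l₁ ++ x :: y :: l₂).take (k + 1) = l₁ ++ [x] := by
      rw [← h1, List.take_append]; simp
    have e2 : (l₁ ++ x :: y :: l₂).drop (k + 1) = y :: l₂ := by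
      rw [← h1, List.drop_append]; simp
    have e3 : (l₁ ++ l₂).take k = l₁ := by rw [← h1]; simp
    have e4 : (l₁ ++ l₂).drop k = l₂ := by rw [← h1]; simp
    rw [e1, e2, e3, e4]
    show ∑ j, linkForm P.e P.f k (powForm P.e P.f (k + 1) (prodForm k 2 t d) N)
      (prodForm k 2 t d) (l₁ ++ [x] ++ [P.e j]) (P.f j :: y :: l₂) = _
    have h3 : ∀ j, linkForm P.e P.f k (powForm P.e P.f (k + 1) (prodForm k 2 t d) N)
        (prodForm k 2 t d) (l₁ ++ [x] ++ [P.e j]) (P.f j :: y :: l₂) =
        P.B x (P.e j) * P.B (P.f j) y * linkForm P.e P.f k (powForm P.e P.f k t N) t l₁ l₂ := by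
      intro j
      rw [linkForm_eq, linkForm_eq, Finset.mul_sum]
      refine Finset.sum_congr rfl fun a _ => ?_
      have e5 : l₁ ++ [x] ++ [P.e j] ++ (List.ofFn fun i => P.e (a i)) =
          l₁ ++ x :: P.e j :: List.ofFn fun i => P.e (a i) := by simp
      rw [e5, ih _ _ _ _ h1 (by simp), prodForm_mid P hd _ _ _ _ (by simp)]
      ring
    rw [Finset.sum_congr rfl fun j _ => h3 j, ← Finset.sum_mul, mul_comm]
    congr 1
    conv_rhs => rw [← P.zag x]
    rw [map_sum, LinearMap.sum_apply]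
    exact Finset.sum_congr rfl fun j _ => by rw [map_smul, LinearMap.smul_apply, smul_eq_mul]

/-- the nilpotence conjecture for `X^(k+1)` implies the nilpotence conjecture for `X^k` -/
theorem nilpotence_pred (hne : ∃ x y, P.B x y ≠ 0) {k : ℕ} (h : P.Nilpotence (k + 1)) :
    P.Nilpotence k := by
  intro t ht hn
  obtain ⟨d, hd, hd'⟩ := P.cycles.corr 1 X.cycles.one
  have hd1 : ∀ x y, d [x, y] = P.B x y := fun x y => by rw [hd', Module.End.one_apply]
  have hu : P.cyc (2 * (k + 1)) (prodForm k 2 t d) := P.cycles.prod (2 * k) 2 k t d ht hd (by omega)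
  obtain ⟨N, hN⟩ := h _ hu (by
    intro c hc
    have hc' : P.cyc (2 * k + 2) c := hc
    rw [link_mid P hd1 hc']
    exact hn _ (P.cycles.contr (2 * k) k c hc' (by omega)))
  obtain ⟨x, y, hxy⟩ := hne
  refine ⟨N, fun l hl => ?_⟩
  have h1 : (l.take k).length = k := by rw [List.length_take]; omega
  have h2 : (l.drop k).length = k := by rw [List.length_drop]; omega
  have h3 := pow_mid P (t := t) hd1 N (l.take k) (l.drop k) x y h1 h2
  rw [hN _ (by simp only [List.length_append, List.length_cons]; omega),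
    List.take_append_drop] at h3
  exact (mul_eq_zero.mp h3.symm).resolve_right hxy

theorem nilpotence_of_le (hne : ∃ x y, P.B x y ≠ 0) {K : ℕ} (h : P.Nilpotence K) {k : ℕ}
    (hk : k ≤ K) : P.Nilpotence k := by
  obtain ⟨d, rfl⟩ := Nat.exists_eq_add_of_le hk
  clear hk
  induction d with
  | zero => exact h
  | succ d ih => exact ih (nilpotence_pred P hne h)

end Pool.Agent.Helper90.NS
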