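import Pool.Agent.Helper90.NS.Statement

/-!
# Further notions, used in the proofs only
-/

namespace Pool.Agent.Helper90.NS

open Pool.Agent.Helper29.CPB Pool.Agent.Helper89.NN

universe u v

variable {F : Type u} [Field F]

/-- The trace on the even cohomology of `X^k` is a numerical invariant: it vanishes for numerically
trivial algebraic self-correspondences of degree `0`. -/
def NumTrace {X : Variety.{u, v} F} (P : Powers X) (k : ℕ) : Prop :=
  ∀ t, P.cyc (2 * k) t → NumZero P.e P.f P.cyc k t →
    linkForm P.e P.f (2 * k) t (plus P k) [] [] = 0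

/-- Every algebraic self-correspondence `t` of degree `0` of `X^k` is algebraic over `ℚ`:
`∑ c i t^(i+1) = 0` for some rational numbers `c i`, not all zero. This is known: by Katz–Messing
and specialisation the characteristic polynomials have rational coefficients. -/
def RationalCorr {X : Variety.{u, v} F} (P : Powers X) (k : ℕ) : Prop :=
  ∀ t, P.cyc (2 * k) t → ∃ (n : ℕ) (c : Fin n → ℚ), (∃ i, c i ≠ 0) ∧
    ∀ l : List X.H, l.length = 2 * k → ∑ i, (c i : F) * powForm P.e P.f k t i l = 0

/-- Reduction of `X` (over some field) at a place with finite residue field, of good reduction: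
`X₀` is the reduction and `sp` the specialisation isomorphism in cohomology. The specialisation of
an algebraic cycle is algebraic, and `C⁺` is known for `X₀` (Katz–Messing). -/
structure Reduction {X X₀ : Variety.{u, v} F} (P : Powers X) (P₀ : Powers X₀) where
  /-- specialisation of cohomology classes -/
  sp : X.H ≃ₗ[F] X₀.H
  dim : X₀.dim = X.dim
  deg : ∀ i x, sp (X.π i x) = X₀.π i (sp x)
  form : ∀ x y, P₀.B (sp x) (sp y) = P.B x y
  cycles : ∀ n t, P.cyc n t → P₀.cyc n (fun l => t (l.map sp.symm))
  katzMessing : X₀.CPlus

/-- Numerical equivalence on `X^k × X^k` is compatible with the reduction: a numerically trivial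
cycle of codimension `k dim X` specialises to a numerically trivial one. -/
def Reduction.SpNum {X X₀ : Variety.{u, v} F} {P : Powers X} {P₀ : Powers X₀} (R : Reduction P P₀)
    (k : ℕ) : Prop :=
  ∀ t, P.cyc (2 * k) t → NumZero P.e P.f P.cyc k t →
    NumZero P₀.e P₀.f P₀.cyc k (fun l => t (l.map R.sp.symm))

end Pool.Agent.Helper90.NS
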