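import Pool.Agent.Helper90.NS.Lower

/-!
# The classes of the diagonal and of `π⁺` on the powers; the trace on the even cohomology is a
numerical invariant iff the nilpotence conjecture holds
-/

namespace Pool.Agent.Helper90.NS

open Pool.Agent.Helper29.CPB Pool.Agent.Helper89.NN

universe u v

section Linear

variable {F : Type u} [Field F] {V : Type v} [AddCommGroup V] [Module F V]
  (B : V →ₗ[F] V →ₗ[F] F) (g : Module.End F V)

lemma pairForm_zero : pairForm B g 0 [] = 1 := by simp [pairForm]

/-- removing the two factors in the middle -/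
lemma pairForm_mid {k : ℕ} {l₁ l₂ : List V} (x y : V) (h1 : l₁.length = k) (h2 : l₂.length = k) :
    pairForm B g (k + 1) (l₁ ++ x :: y :: l₂) = pairForm B g k (l₁ ++ l₂) * B (g x) y := by
  have e1 : (l₁ ++ x :: y :: l₂).take (k + 1) = l₁ ++ [x] := by
    rw [← h1, List.take_append]; simp
  have e2 : (l₁ ++ x :: y :: l₂).drop (k + 1) = y :: l₂ := by
    rw [← h1, List.drop_append]; simp
  have e3 : (l₁ ++ l₂).take k = l₁ := by rw [← h1]; simp
  have e4 : (l₁ ++ l₂).drop k = l₂ := by rw [← h1]; simp
  unfold pairForm
  rw [e1, e2, e3, e4, List.reverse_cons, List.zipWith_append (by simp; omega), List.prod_append]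
  simp

/-- removing the first and the last factor -/
lemma pairForm_outer {k : ℕ} {l : List V} (x y : V) (hl : l.length = 2 * k) :
    pairForm B g (k + 1) (x :: (l ++ [y])) = B (g x) y * pairForm B g k l := by
  have e1 : (x :: (l ++ [y])).take (k + 1) = x :: l.take k := by
    rw [List.take_succ_cons, List.take_append_of_le_length (by omega)]
  have e2 : (x :: (l ++ [y])).drop (k + 1) = l.drop k ++ [y] := by
    rw [List.drop_succ_cons, List.drop_append_of_le_length (by omega)]
  unfold pairForm
  rw [e1, e2, List.reverse_append, List.reverse_singleton, List.singleton_append,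
    List.zipWith_cons_cons, List.prod_cons]

lemma exists_outer {k : ℕ} {l : List V} (hl : l.length = 2 * (k + 1)) :
    ∃ x l' y, l = x :: (l' ++ [y]) ∧ l'.length = 2 * k := by
  obtain ⟨x, m, rfl⟩ : ∃ x m, l = x :: m := by
    cases l with
    | nil => simp at hl
    | cons x m => exact ⟨x, m, rfl⟩
  have hm : m.length = 2 * k + 1 := by rw [List.length_cons] at hl; omega
  have hne : m ≠ [] := by rintro rfl; simp at hm
  refine ⟨x, m.dropLast, m.getLast hne, by rw [List.dropLast_append_getLast hne], ?_⟩
  rw [List.length_dropLast]; omega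

lemma pairForm_add (k : ℕ) : ∀ (l₁ l₂ : List V) (x y : V), l₁.length + l₂.length + 1 = 2 * k →
    pairForm B g k (l₁ ++ (x + y) :: l₂) =
      pairForm B g k (l₁ ++ x :: l₂) + pairForm B g k (l₁ ++ y :: l₂) := by
  induction k with
  | zero => intro l₁ l₂ x y h; omega
  | succ k ih =>
    intro l₁ l₂ x y h
    cases l₁ with
    | nil =>
      have hne : l₂ ≠ [] := by rintro rfl; simp at h; omega
      obtain ⟨m, z, rfl⟩ : ∃ m z, l₂ = m ++ [z] :=
        ⟨l₂.dropLast, l₂.getLast hne, (List.dropLast_append_getLast hne).symm⟩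
      have hm : m.length = 2 * k := by simp at h; omega
      simp only [List.nil_append]
      rw [pairForm_outer B g _ _ hm, pairForm_outer B g _ _ hm, pairForm_outer B g _ _ hm]
      simp only [map_add, LinearMap.add_apply, add_mul]
    | cons a l₁ =>
      rcases List.eq_nil_or_concat l₂ with rfl | ⟨m, z, rfl⟩
      · have hm : l₁.length = 2 * k := by simp at h; omega
        simp only [List.cons_append]
        rw [pairForm_outer B g _ _ hm, pairForm_outer B g _ _ hm, pairForm_outer B g _ _ hm]
        simp only [map_add, add_mul]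
      · have hm : l₁.length + m.length + 1 = 2 * k := by simp at h; omega
        have e : ∀ w : V, (a :: l₁) ++ w :: (m.concat z) = a :: ((l₁ ++ w :: m) ++ [z]) := by
          intro w; simp
        have hw : ∀ w : V, (l₁ ++ w :: m).length = 2 * k := by intro w; simp; omega
        rw [e, e, e, pairForm_outer B g _ _ (hw _), pairForm_outer B g _ _ (hw _),
          pairForm_outer B g _ _ (hw _), ih _ _ _ _ hm, mul_add]

lemma pairForm_smul (k : ℕ) : ∀ (l₁ l₂ : List V) (c : F) (x : V),
    l₁.length + l₂.length + 1 = 2 * k →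
    pairForm B g k (l₁ ++ (c • x) :: l₂) = c * pairForm B g k (l₁ ++ x :: l₂) := by
  induction k with
  | zero => intro l₁ l₂ c x h; omega
  | succ k ih =>
    intro l₁ l₂ c x h
    cases l₁ with
    | nil =>
      have hne : l₂ ≠ [] := by rintro rfl; simp at h; omega
      obtain ⟨m, z, rfl⟩ : ∃ m z, l₂ = m ++ [z] :=
        ⟨l₂.dropLast, l₂.getLast hne, (List.dropLast_append_getLast hne).symm⟩
      have hm : m.length = 2 * k := by simp at h; omega
      simp only [List.nil_append]
      rw [pairForm_outer B g _ _ hm, pairForm_outer B g _ _ hm]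
      simp only [map_smul, LinearMap.smul_apply, smul_eq_mul, mul_assoc]
    | cons a l₁ =>
      rcases List.eq_nil_or_concat l₂ with rfl | ⟨m, z, rfl⟩
      · have hm : l₁.length = 2 * k := by simp at h; omega
        simp only [List.cons_append]
        rw [pairForm_outer B g _ _ hm, pairForm_outer B g _ _ hm]
        simp only [map_smul, smul_eq_mul, mul_assoc]
      · have hm : l₁.length + m.length + 1 = 2 * k := by simp at h; omega
        have e : ∀ w : V, (a :: l₁) ++ w :: (m.concat z) = a :: ((l₁ ++ w :: m) ++ [z]) := by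
          intro w; simp
        have hw : ∀ w : V, (l₁ ++ w :: m).length = 2 * k := by intro w; simp; omega
        rw [e, e, pairForm_outer B g _ _ (hw _), pairForm_outer B g _ _ (hw _), ih _ _ _ _ hm]
        ring

lemma pairForm_even (ε : Module.End F V) (h : ∀ x y, B (g (ε x)) (ε y) = B (g x) y) (k : ℕ) :
    ∀ l : List V, l.length = 2 * k → pairForm B g k (l.map ε) = pairForm B g k l := by
  induction k with
  | zero =>
    intro l hl
    rw [List.length_eq_zero_iff.mp (by omega : l.length = 0), List.map_nil]
  | succ k ih =>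
    intro l hl
    obtain ⟨x, m, y, rfl, hm⟩ := exists_outer hl
    rw [List.map_cons, List.map_append, List.map_singleton, pairForm_outer B g _ _ (by simpa),
      pairForm_outer B g _ _ hm, ih m hm, h]

lemma pairForm_form (ε : Module.End F V) (h : ∀ x y, B (g (ε x)) (ε y) = B (g x) y) (k : ℕ) :
    IsEvenForm ε (2 * k) (pairForm B g k) where
  add l₁ l₂ x y hl := pairForm_add B g k l₁ l₂ x y hl
  smul l₁ l₂ c x hl := pairForm_smul B g k l₁ l₂ c x hl
  even l hl := pairForm_even B g ε h k l hl

end Linear

variable {F : Type u} [Field F] [CharZero F] {X : Variety.{u, v} F} (P : Powers X)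

lemma pairForm_cyc {g : Module.End F X.H} (hg : X.alg 0 g) (k : ℕ) :
    P.cyc (2 * k) (pairForm P.B g k) := by
  induction k with
  | zero =>
    refine P.cycles.congr _ _ _ P.cycles.one ?_
    intro l hl
    rw [List.length_eq_zero_iff.mp (by omega : l.length = 0), pairForm_zero]
  | succ k ih =>
    obtain ⟨d, hd, hd'⟩ := P.cycles.corr g hg
    refine P.cycles.congr _ _ _ (P.cycles.prod (2 * k) 2 k _ d ih hd (by omega)) ?_
    intro l hl
    have h1 : (l.take k).length = k := by rw [List.length_take]; omega
    obtain ⟨x, y, l₂, h2⟩ : ∃ x y l₂, l.drop k = x :: y :: l₂ := by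
      have h3 : (l.drop k).length = k + 2 := by rw [List.length_drop]; omega
      match h4 : l.drop k with
      | [] => rw [h4] at h3; simp at h3
      | [_] => rw [h4] at h3; simp at h3
      | x :: y :: l₂ => exact ⟨x, y, l₂, rfl⟩
    have h3 : l₂.length = k := by
      have := congrArg List.length h2
      rw [List.length_drop, List.length_cons, List.length_cons] at this
      omega
    have h4 : l = l.take k ++ x :: y :: l₂ := by rw [← h2, List.take_append_drop]
    rw [h4]
    generalize l.take k = l₁ at h1
    rw [pairForm_mid P.B g x y h1 h3]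
    have e1 : (l₁ ++ x :: y :: l₂).take k = l₁ := by rw [← h1]; simp
    have e2 : (l₁ ++ x :: y :: l₂).drop k = x :: y :: l₂ := by rw [← h1]; simp
    have e3 : (l₁ ++ x :: y :: l₂).drop (k + 2) = l₂ := by
      rw [← h1, List.drop_append]; simp
    unfold prodForm
    rw [e1, e2, e3]
    show _ = pairForm P.B g k (l₁ ++ l₂) * d [x, y]
    rw [hd']

lemma parity_pair (x y : X.H) :
    P.B (parity X.dim X.π (parity X.dim X.π x)) (parity X.dim X.π y) =
      P.B (parity X.dim X.π x) y := by
  have h := dual_sgn P.duality (X.sgn x) y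
  exact h

lemma plus_form (k : ℕ) : IsEvenForm (parity X.dim X.π) (2 * k) (plus P k) := by
  have h1 : IsEvenForm (parity X.dim X.π) (2 * k) (pairForm P.B 1 k) :=
    pairForm_form P.B 1 _ (fun x y => dual_sgn P.duality x y) k
  have h2 : IsEvenForm (parity X.dim X.π) (2 * k) (pairForm P.B (parity X.dim X.π) k) :=
    pairForm_form P.B _ _ (parity_pair P) k
  refine ⟨?_, ?_, ?_⟩
  · intro l₁ l₂ x y hl
    unfold plus
    rw [h1.add _ _ _ _ hl, h2.add _ _ _ _ hl]
    ring
  · intro l₁ l₂ c x hl
    unfold plus
    rw [h1.smul _ _ _ _ hl, h2.smul _ _ _ _ hl]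
    ring
  · intro l hl
    unfold plus
    rw [h1.even _ hl, h2.even _ hl]

/-- the sign conjecture gives the algebraicity of `π⁺` on all powers -/
lemma plus_cyc (h : X.CPlus) (k : ℕ) : P.cyc (2 * k) (plus P k) := by
  have h1 := pairForm_cyc P X.cycles.one k
  have h2 := pairForm_cyc P (g := X.sgn) (Variety.sgn_mem X h) k
  have h3 := P.cycles.smul _ (1 / 2 : ℚ) _ (P.cycles.add _ _ _ h1 h2)
  refine P.cycles.congr _ _ _ h3 ?_
  intro l _
  unfold plus
  push_cast
  rw [one_div]
  rfl

theorem numCPlus_of_cplus (h : X.CPlus) (k : ℕ) : NumCPlus P k :=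
  ⟨plus P k, plus_cyc P h k, fun _ _ => rfl⟩

theorem numTrace_of_numCPlus {k : ℕ} (h : NumCPlus P k) : NumTrace P k := by
  obtain ⟨s, hs, h⟩ := h
  intro t ht hn
  rw [← h t ht]
  exact hn s hs

end Pool.Agent.Helper90.NS
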