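import Pool.Agent.Helper90.NS.Represent
import Pool.Agent.Helper29.CPB.Idem

/-!
# Rational traces give rational characteristic polynomials
-/

namespace Pool.Agent.Helper90.NS

open Pool.Agent.Helper29.CPB Pool.Agent.Helper89.NN Polynomial

universe u v

variable {F : Type u} [Field F] [CharZero F] {X : Variety.{u, v} F} (P : Powers X)

lemma sum_pow_cyc {k : ℕ} {t : List X.H → F} (ht : P.cyc (2 * k) t) (n : ℕ) (c : Fin n → ℚ) :
    P.cyc (2 * k) (fun l => ∑ i, (c i : F) * powForm P.e P.f k t i l) := by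
  induction n with
  | zero =>
    refine P.cycles.congr _ _ _ (P.cycles.smul _ 0 _ (pairForm_cyc P X.cycles.one k)) ?_
    intro l _
    rw [Finset.univ_eq_empty, Finset.sum_empty, Rat.cast_zero, zero_mul]
  | succ n ih =>
    refine P.cycles.congr _ _ _ (P.cycles.add _ _ _ (ih fun i => c i.castSucc)
      (P.cycles.smul _ (c (Fin.last n)) _ (pow_cyc P ht n))) ?_
    intro l _
    rw [Fin.sum_univ_castSucc]
    rfl

/-- If the traces on the even cohomology and the supertraces are rational, every algebraic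
self-correspondence is algebraic over `ℚ`. -/
theorem rationalCorr_of_trace {k : ℕ} (hr : RationalTrace P k)
    (hi : ∀ t s, P.cyc (2 * k) t → P.cyc (2 * k) s →
      ∃ q : ℚ, linkForm P.e P.f (2 * k) t s [] [] = q) : RationalCorr P k := by
  intro t ht
  have h2 : (2 : F) ≠ 0 := two_ne_zero
  have htr : ∀ n, 1 ≤ n → ∃ q : ℚ,
      LinearMap.trace F _ ((Matrix.toLin' (mat P k t)) ^ n) = (q : F) := by
    intro n hn
    obtain ⟨N, rfl⟩ : ∃ N, n = N + 1 := ⟨n - 1, by omega⟩
    obtain ⟨q, hq⟩ := hr _ (pow_cyc P ht N)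
    obtain ⟨q', hq'⟩ := hi _ _ (pow_cyc P ht N) (pairForm_cyc P X.cycles.one k)
    rw [link_plus P (P.cycles.form _ _ (pow_cyc P ht N)), mat_pow] at hq
    rw [link_eq_trace P (P.cycles.form _ _ (pow_cyc P ht N))
      (P.cycles.form _ _ (pairForm_cyc P X.cycles.one k)), mat_one, mul_one, mat_pow] at hq'
    refine ⟨2 * q - q', ?_⟩
    rw [← Matrix.toLin'_pow, Matrix.trace_toLin'_eq]
    push_cast
    rw [← hq, ← hq', ← mul_assoc, mul_inv_cancel₀ h2, one_mul, add_sub_cancel_left]
  obtain ⟨p, hp⟩ := rational_charpoly' (Matrix.toLin' (mat P k t)) htr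
  have hp0 : p ≠ 0 := by
    rintro rfl
    rw [Polynomial.map_zero] at hp
    exact (Matrix.toLin' (mat P k t)).charpoly_monic.ne_zero hp.symm
  refine ⟨p.natDegree + 1, fun i => p.coeff i, ⟨Fin.last _, ?_⟩, ?_⟩
  · show p.coeff ((Fin.last p.natDegree : Fin (p.natDegree + 1)) : ℕ) ≠ 0
    rw [Fin.val_last]
    exact Polynomial.leadingCoeff_ne_zero.mpr hp0
  · intro l hl
    have h3 : mat P k (fun l => ∑ i : Fin (p.natDegree + 1),
        (p.coeff i : F) * powForm P.e P.f k t i l) = 0 := by
      have e1 : mat P k (fun l => ∑ i : Fin (p.natDegree + 1),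
          (p.coeff i : F) * powForm P.e P.f k t i l) =
          ∑ i : Fin (p.natDegree + 1), (p.coeff i : F) • mat P k t ^ ((i : ℕ) + 1) := by
        ext a b
        rw [Matrix.sum_apply, mat, Matrix.of_apply]
        refine Finset.sum_congr rfl fun i _ => ?_
        rw [Matrix.smul_apply, ← mat_pow, smul_eq_mul]
        rfl
      have h4 : aeval (Matrix.toLin' (mat P k t)) (p.map (algebraMap ℚ F)) = 0 := by
        rw [hp]; exact LinearMap.aeval_self_charpoly _
      have h5 : aeval (mat P k t) (p.map (algebraMap ℚ F)) = 0 := by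
        apply (LinearEquiv.map_eq_zero_iff Matrix.toLinAlgEquiv'.toLinearEquiv).mp
        have := Polynomial.aeval_algHom_apply
          (Matrix.toLinAlgEquiv' : Matrix (Fin k → Fin P.r) (Fin k → Fin P.r) F ≃ₐ[F] _).toAlgHom
          (mat P k t) (p.map (algebraMap ℚ F))
        exact this.symm.trans h4
      rw [e1, Finset.sum_congr rfl fun (i : Fin (p.natDegree + 1)) _ => by
        rw [pow_succ, ← smul_mul_assoc], ← Finset.sum_mul]
      have h6 : ∑ i : Fin (p.natDegree + 1), (p.coeff i : F) • mat P k t ^ (i : ℕ) = 0 := by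
        rw [← h5, Polynomial.aeval_eq_sum_range' (n := p.natDegree + 1)
          (lt_of_le_of_lt Polynomial.natDegree_map_le (Nat.lt_succ_self _)), Finset.sum_range]
        refine Finset.sum_congr rfl fun i _ => ?_
        rw [Polynomial.coeff_map]
        rfl
      rw [h6, zero_mul]
    exact eq_zero_of_mat P (sum_pow_cyc P ht _ _) h3 l hl

end Pool.Agent.Helper90.NS
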