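import Pool.Agent.Helper90.NS.Trace

/-!
# If the traces on the even cohomology are rational and numerical invariants, the class of `π⁺` is
numerically equivalent to an algebraic class
-/

namespace Pool.Agent.Helper90.NS

open Pool.Agent.Helper29.CPB Pool.Agent.Helper89.NN

universe u v

/-- A rational functional on a `ℚ`-subspace `T` with a rational pairing `β`, which vanishes on the
radical of `β`, is given by an element of `T`. -/
lemma exists_rational_rep {F : Type u} [Field F] [CharZero F] {V : Type v} [AddCommGroup V]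
    [Module F V] [FiniteDimensional F V] (T : Set V)
    (hsum : ∀ (n : ℕ) (t : Fin n → V) (a : Fin n → ℚ), (∀ i, t i ∈ T) →
      ∑ i, (a i : F) • t i ∈ T)
    (β : V →ₗ[F] V →ₗ[F] F) (φ : V →ₗ[F] F)
    (hβ : ∀ t ∈ T, ∀ s ∈ T, ∃ q : ℚ, β t s = q) (hφ : ∀ t ∈ T, ∃ q : ℚ, φ t = q)
    (h : ∀ t ∈ T, (∀ s ∈ T, β t s = 0) → φ t = 0) : ∃ s ∈ T, ∀ t ∈ T, β t s = φ t := by
  obtain ⟨f, hfT, hfs, -⟩ := Submodule.exists_fun_fin_finrank_span_eq F T
  generalize Module.finrank F (Submodule.span F T) = n at f hfT hfs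
  have hG : ∀ i j, ∃ q : ℚ, β (f i) (f j) = q := fun i j => hβ _ (hfT i) _ (hfT j)
  choose G hG using hG
  have hq : ∀ i, ∃ q : ℚ, φ (f i) = q := fun i => hφ _ (hfT i)
  choose ψ hψ using hq
  have hspan : ∀ t ∈ T, t ∈ Submodule.span F (Set.range f) := fun t ht => by
    rw [hfs]; exact Submodule.subset_span ht
  -- solve the linear system over `ℚ`
  let M : Matrix (Fin n) (Fin n) ℚ := Matrix.of G
  have key : ψ ∈ LinearMap.range M.mulVecLin := by
    by_contra hcon
    obtain ⟨g, hg, hgk⟩ := Submodule.exists_le_ker_of_notMem hcon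
    set b : Fin n → ℚ := fun j => g (Pi.single j 1) with hb
    have hgx : ∀ x : Fin n → ℚ, g x = ∑ j, b j * x j := by
      intro x
      conv_lhs => rw [← Finset.univ_sum_single x]
      rw [map_sum]
      refine Finset.sum_congr rfl fun j _ => ?_
      have e1 : (Pi.single j (x j) : Fin n → ℚ) = x j • Pi.single j 1 := by
        rw [← Pi.single_smul, smul_eq_mul, mul_one]
      rw [e1, map_smul, smul_eq_mul, mul_comm]
    have hker : ∀ i, ∑ j, b j * G j i = 0 := by
      intro i
      have h1 := hgk ⟨Pi.single i 1, rfl⟩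
      rw [LinearMap.mem_ker, hgx] at h1
      rw [← h1]
      refine Finset.sum_congr rfl fun j _ => ?_
      rw [Matrix.mulVecLin_apply, Matrix.mulVec_single_one]
      rfl
    have hT := hsum n f b hfT
    have h2 : ∀ s ∈ T, β (∑ j, (b j : F) • f j) s = 0 := by
      intro s hs
      have h3 := hspan s hs
      clear hs
      induction h3 using Submodule.span_induction with
      | mem x hx =>
        obtain ⟨i, rfl⟩ := hx
        rw [map_sum, LinearMap.sum_apply]
        have h4 := congrArg (fun q : ℚ => (q : F)) (hker i)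
        simp only [Rat.cast_sum, Rat.cast_mul, Rat.cast_zero] at h4
        rw [← h4]
        refine Finset.sum_congr rfl fun j _ => ?_
        rw [map_smul, LinearMap.smul_apply, hG, smul_eq_mul]
      | zero => rw [map_zero]
      | add x y _ _ hx hy => rw [map_add, hx, hy, add_zero]
      | smul a x _ hx => rw [map_smul, hx, smul_zero]
    have h5 := h _ hT h2
    apply hg
    rw [hgx]
    rw [map_sum] at h5
    have h6 : ((∑ j, b j * ψ j : ℚ) : F) = 0 := by
      rw [← h5]
      push_cast
      refine Finset.sum_congr rfl fun j _ => ?_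
      rw [map_smul, hψ, smul_eq_mul]
    exact_mod_cast h6
  obtain ⟨a, ha⟩ := key
  refine ⟨∑ j, (a j : F) • f j, hsum n f a hfT, ?_⟩
  intro t ht
  have h3 := hspan t ht
  clear ht
  induction h3 using Submodule.span_induction with
  | mem x hx =>
    obtain ⟨i, rfl⟩ := hx
    have h1 := congrFun ha i
    rw [Matrix.mulVecLin_apply] at h1
    rw [hψ, ← h1, map_sum]
    simp only [Matrix.mulVec, dotProduct, Rat.cast_sum, Rat.cast_mul]
    refine Finset.sum_congr rfl fun j _ => ?_
    rw [map_smul, hG, smul_eq_mul, mul_comm]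
    rfl
  | zero => rw [map_zero, map_zero, LinearMap.zero_apply]
  | add x y _ _ hx hy => rw [map_add, map_add, LinearMap.add_apply, hx, hy]
  | smul a x _ hx => rw [map_smul, map_smul, LinearMap.smul_apply, hx]

variable {F : Type u} [Field F] [CharZero F] {X : Variety.{u, v} F} (P : Powers X)

lemma mat_add (k : ℕ) (t t' : List X.H → F) :
    mat P k (fun l => t l + t' l) = mat P k t + mat P k t' := rfl

lemma mat_smul (k : ℕ) (c : F) (t : List X.H → F) :
    mat P k (fun l => c * t l) = c • mat P k t := rfl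

lemma sum_cyc (k n : ℕ) (t : Fin n → List X.H → F) (a : Fin n → ℚ)
    (ht : ∀ i, P.cyc (2 * k) (t i)) :
    ∃ s, P.cyc (2 * k) s ∧ mat P k s = ∑ i, (a i : F) • mat P k (t i) := by
  induction n with
  | zero =>
    refine ⟨fun l => ((0 : ℚ) : F) * pairForm P.B 1 k l,
      P.cycles.smul _ 0 _ (pairForm_cyc P X.cycles.one k), ?_⟩
    rw [mat_smul, Rat.cast_zero, zero_smul, Finset.univ_eq_empty, Finset.sum_empty]
  | succ n ih =>
    obtain ⟨s, hs, hs'⟩ := ih (fun i => t i.succ) (fun i => a i.succ) (fun i => ht _)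
    refine ⟨_, P.cycles.add _ _ _ (P.cycles.smul _ (a 0) _ (ht 0)) hs, ?_⟩
    rw [mat_add, mat_smul, hs', Fin.sum_univ_succ]

theorem numCPlus_of_numTrace {k : ℕ} (hr : RationalTrace P k)
    (hi : ∀ t s, P.cyc (2 * k) t → P.cyc (2 * k) s →
      ∃ q : ℚ, linkForm P.e P.f (2 * k) t s [] [] = q)
    (h : NumTrace P k) : NumCPlus P k := by
  let T : Set (Matrix (Fin k → Fin P.r) (Fin k → Fin P.r) F) :=
    {M | ∃ t, P.cyc (2 * k) t ∧ mat P k t = M}
  let β : Matrix (Fin k → Fin P.r) (Fin k → Fin P.r) F →ₗ[F]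
      Matrix (Fin k → Fin P.r) (Fin k → Fin P.r) F →ₗ[F] F :=
    LinearMap.mk₂ F (fun M N => (sM P k * (M * N)).trace)
      (fun M M' N => by rw [add_mul, mul_add, Matrix.trace_add])
      (fun c M N => by rw [smul_mul_assoc, mul_smul_comm, Matrix.trace_smul])
      (fun M N N' => by rw [mul_add, mul_add, Matrix.trace_add])
      (fun c M N => by rw [mul_smul_comm, mul_smul_comm, Matrix.trace_smul])
  let φ : Matrix (Fin k → Fin P.r) (Fin k → Fin P.r) F →ₗ[F] F :=
    { toFun := fun M => (2 : F)⁻¹ * ((sM P k * M).trace + M.trace)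
      map_add' := fun M N => by
        have h1 : (sM P k * (M + N)).trace = (sM P k * M).trace + (sM P k * N).trace := by
          rw [mul_add, Matrix.trace_add]
        rw [h1, Matrix.trace_add]
        ring
      map_smul' := fun c M => by
        rw [mul_smul_comm, Matrix.trace_smul, Matrix.trace_smul, smul_eq_mul, smul_eq_mul,
          RingHom.id_apply, smul_eq_mul]
        ring }
  have hβ : ∀ t s, P.cyc (2 * k) t → P.cyc (2 * k) s →
      β (mat P k t) (mat P k s) = linkForm P.e P.f (2 * k) t s [] [] := fun t s ht hs =>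
    (link_eq_trace P (P.cycles.form _ _ ht) (P.cycles.form _ _ hs)).symm
  have hφ : ∀ t, P.cyc (2 * k) t →
      φ (mat P k t) = linkForm P.e P.f (2 * k) t (plus P k) [] [] := fun t ht =>
    (link_plus P (P.cycles.form _ _ ht)).symm
  obtain ⟨_, ⟨s, hs, rfl⟩, hs'⟩ := exists_rational_rep T
    (by
      intro n t a ht
      choose t' ht' ht'' using ht
      obtain ⟨s, hs, hs'⟩ := sum_cyc P k n t' a ht'
      exact ⟨s, hs, by rw [hs']; exact Finset.sum_congr rfl fun i _ => by rw [ht'']⟩)
    β φ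
    (by
      rintro _ ⟨t, ht, rfl⟩ _ ⟨s, hs, rfl⟩
      rw [hβ t s ht hs]
      exact hi t s ht hs)
    (by
      rintro _ ⟨t, ht, rfl⟩
      rw [hφ t ht]
      exact hr t ht)
    (by
      rintro _ ⟨t, ht, rfl⟩ h1
      rw [hφ t ht]
      apply h t ht
      intro s hs
      rw [← hβ t s ht hs]
      exact h1 _ ⟨s, hs, rfl⟩)
  refine ⟨s, hs, fun t ht => ?_⟩
  rw [← hβ t s ht hs, ← hφ t ht]
  exact hs' _ ⟨t, ht, rfl⟩

/-- intersection numbers are rational if some correspondence has a non-zero supertrace -/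
lemma cyc_zero_rat {a : Module.End F X.H} (ha : X.alg 0 a)
    (hne : LinearMap.trace F X.H (a * X.sgn) ≠ 0) {t : List X.H → F} (ht : P.cyc 0 t) :
    ∃ q : ℚ, t [] = q := by
  obtain ⟨d, hd, hd'⟩ := P.cycles.corr a ha
  obtain ⟨g, hg, hg'⟩ := P.cycles.corr' _ (P.cycles.prod 0 2 0 t d ht hd le_rfl)
  have h1 : g = t [] • a := by
    ext x
    rw [← sub_eq_zero]
    apply P.duality.nondeg
    intro y
    have h2 := hg' x y
    have h3 : prodForm 0 2 t d [x, y] = t [] * d [x, y] := rfl
    rw [h3, hd'] at h2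
    rw [map_sub, LinearMap.sub_apply, ← h2, LinearMap.smul_apply, map_smul, LinearMap.smul_apply,
      smul_eq_mul, sub_self]
  obtain ⟨q, hq⟩ := X.cycles.rat g hg
  obtain ⟨q', hq'⟩ := X.cycles.rat a ha
  have h2 : t [] * (q' : F) = q := by
    rw [← hq', ← hq, h1]
    show _ = LinearMap.trace F X.H ((t [] • a) * parity X.dim X.π)
    rw [smul_mul_assoc, map_smul, smul_eq_mul]
    rfl
  have h3 : (q' : F) ≠ 0 := by
    rw [← hq']
    exact hne
  refine ⟨q / q', ?_⟩
  push_cast
  rw [← h2, mul_div_cancel_right₀ _ h3]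

lemma link_rat {a : Module.End F X.H} (ha : X.alg 0 a)
    (hne : LinearMap.trace F X.H (a * X.sgn) ≠ 0) {n : ℕ} {t s : List X.H → F}
    (ht : P.cyc n t) (hs : P.cyc n s) : ∃ q : ℚ, linkForm P.e P.f n t s [] [] = q := by
  have h1 := link_cyc P ht hs n le_rfl le_rfl
  rw [Nat.sub_self] at h1
  exact cyc_zero_rat P ha hne h1

end Pool.Agent.Helper90.NS
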