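import Pool.Agent.Helper89.NN.Statement

/-!
# Numerical forms of the sign conjecture for the powers of a variety

Additions to `Pool.Agent.Helper89.NN.Statement`. A self-correspondence `t` of `X^k` of degree `0` is
regarded as the form `t [x₁, …, x_k, y_k, …, y₁]`. For two of them `t` and `s`,
`linkForm e f (2 * k) t s [] []` is the intersection number of `t` and the transpose of `s`, that is
the supertrace of the composite of `t` and `s` on the cohomology of `X^k`.
-/

namespace Pool.Agent.Helper90.NS

open Pool.Agent.Helper29.CPB Pool.Agent.Helper89.NN

universe u v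

section Linear

variable {F : Type u} [Field F] {V : Type v} [AddCommGroup V] [Module F V]

/-- The form `(x₁, …, x_k, y_k, …, y₁) ↦ ∏ B (g xᵢ) yᵢ` of the operator `g ⊗ … ⊗ g` on the
cohomology of `X^k`. -/
def pairForm (B : V →ₗ[F] V →ₗ[F] F) (g : Module.End F V) (k : ℕ) : List V → F := fun l =>
  (List.zipWith (fun x y => B (g x) y) (l.take k) (l.drop k).reverse).prod

/-- `t` is numerically trivial on `X^k × X^k`: its intersection numbers with all algebraic cycles of
codimension `k dim X` vanish. -/
def NumZero {r : ℕ} (e f : Fin r → V) (cyc : ℕ → (List V → F) → Prop) (k : ℕ) (t : List V → F) :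
    Prop :=
  ∀ s, cyc (2 * k) s → linkForm e f (2 * k) t s [] [] = 0

end Linear

variable {F : Type u} [Field F]

/-- The class of the projector `π⁺` onto the even cohomology of `X^k`: half of the sum of the
classes of the diagonal and of the parity operator `ε ⊗ … ⊗ ε`. -/
noncomputable def plus {X : Variety.{u, v} F} (P : Powers X) (k : ℕ) : List X.H → F := fun l =>
  (2 : F)⁻¹ * (pairForm P.B 1 k l + pairForm P.B (parity X.dim X.π) k l)

/-- The sign conjecture `C⁺(X^k)` up to numerical equivalence: the class of `π⁺` is numerically
equivalent to an algebraic class `s`, i.e. the intersection numbers of both with every algebraic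
cycle agree. (It is not assumed that `s` is idempotent, even numerically.) -/
def NumCPlus {X : Variety.{u, v} F} (P : Powers X) (k : ℕ) : Prop :=
  ∃ s, P.cyc (2 * k) s ∧ ∀ t, P.cyc (2 * k) t →
    linkForm P.e P.f (2 * k) t s [] [] = linkForm P.e P.f (2 * k) t (plus P k) [] []

/-- The traces of the algebraic self-correspondences of degree `0` of `X^k` on its even cohomology
are rational. This is known: by Katz–Messing and specialisation the characteristic polynomials have
rational coefficients. -/
def RationalTrace {X : Variety.{u, v} F} (P : Powers X) (k : ℕ) : Prop :=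
  ∀ t, P.cyc (2 * k) t → ∃ q : ℚ, linkForm P.e P.f (2 * k) t (plus P k) [] [] = q

/-- `X^k` has no phantoms: a numerically trivial idempotent algebraic self-correspondence of degree
`0` is zero, that is a non-zero direct factor of the motive of `X^k` modulo homological equivalence
is non-zero modulo numerical equivalence. -/
def NoPhantom {X : Variety.{u, v} F} (P : Powers X) (k : ℕ) : Prop :=
  ∀ t, P.cyc (2 * k) t → NumZero P.e P.f P.cyc k t →
    (∀ l : List X.H, l.length = 2 * k → powForm P.e P.f k t 1 l = t l) →
    ∀ l : List X.H, l.length = 2 * k → t l = 0

end Pool.Agent.Helper90.NS
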